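import Pool.Agent.Lib.MP_e3911d_co_H.Pat

/-!
# MP_e3911d_co, homomorphism dichotomy: closed chains of hyperedges contain patterns
-/

set_option autoImplicit false

namespace Pool.Agent.Lib.MP_e3911d_H

open Pool.Agent.MP_e3911d_co (nx)

/-- A closed chain: distinct vertices `v 0, .., v (m - 1)`, `v m = v 0`, and hyperedges `e i`
containing `v i` and `v (i + 1)`, `i < m`, not all equal. -/
def Closed {E W : Type} {n : ℕ} (x : E → W → Fin n) (m : ℕ) (v : ℕ → W × Fin n)
    (e : ℕ → E) : Prop :=
  2 ≤ m ∧ (∀ i j, i < m → j < m → v i = v j → i = j) ∧ v m = v 0 ∧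
    (∀ i, i < m → x (e i) (v i).1 = (v i).2 ∧ x (e i) (v (i + 1)).1 = (v (i + 1)).2) ∧
    ∃ i j, i < m ∧ j < m ∧ e i ≠ e j

/-- If two neighbouring hyperedges are equal then the chain can be shortened.

Proof. `v' j = v j` for `j ≤ i`, `v' j = v (j + 1)` for `j > i`; `e' j = e j` for `j ≤ i` and
`e' j = e (j + 1)` for `j > i`. `m = 2` is impossible: then `i = 0`, `e 0 = e 1`. -/
theorem Closed.step {E W : Type} {n : ℕ} {x : E → W → Fin n} {m : ℕ} {v : ℕ → W × Fin n}
    {e : ℕ → E} (h : Closed x m v e) {i : ℕ} (hi : i + 1 < m) (he : e i = e (i + 1)) :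
    ∃ v' e', Closed x (m - 1) v' e' := by
  obtain ⟨hm, hinj, hcl, hE, a, b, ha, hb, hab⟩ := h
  have hm3 : 3 ≤ m := by
    by_contra hcon
    have hm2 : m = 2 := by omega
    have hi0 : i = 0 := by omega
    subst hm2
    subst hi0
    have h0 : ∀ k, k < 2 → e k = e 0 := by
      intro k hk
      rcases (show k = 0 ∨ k = 1 by omega) with h | h
      · rw [h]
      · rw [h]
        exact he.symm
    exact hab ((h0 a ha).trans (h0 b hb).symm)
  refine ⟨fun j => if j ≤ i then v j else v (j + 1), fun j => if j ≤ i then e j else e (j + 1),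
    by omega, ?_, ?_, ?_, ?_⟩
  · intro p q hp hq hpq
    by_cases h1 : p ≤ i
    · by_cases h2 : q ≤ i
      · simp only [h1, h2, if_true] at hpq
        exact hinj p q (by omega) (by omega) hpq
      · simp only [h1, h2, if_true, if_false] at hpq
        have := hinj p (q + 1) (by omega) (by omega) hpq
        omega
    · by_cases h2 : q ≤ i
      · simp only [h1, h2, if_true, if_false] at hpq
        have := hinj (p + 1) q (by omega) (by omega) hpq
        omega
      · simp only [h1, h2, if_false] at hpq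
        have := hinj (p + 1) (q + 1) (by omega) (by omega) hpq
        omega
  · have h1 : ¬ (m - 1 ≤ i) := by omega
    have h2 : m - 1 + 1 = m := by omega
    simp only [h1, if_false, Nat.zero_le, if_true]
    rw [h2]
    exact hcl
  · intro j hj
    rcases Nat.lt_trichotomy j i with h1 | h1 | h1
    · have h2 : j ≤ i := by omega
      have h3 : j + 1 ≤ i := by omega
      simp only [h2, h3, if_true]
      exact hE j (by omega)
    · subst h1
      have h3 : ¬ (j + 1 ≤ j) := by omega
      simp only [le_refl, h3, if_true, if_false]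
      refine ⟨(hE j (by omega)).1, ?_⟩
      rw [he]
      exact (hE (j + 1) (by omega)).2
    · have h2 : ¬ (j ≤ i) := by omega
      have h3 : ¬ (j + 1 ≤ i) := by omega
      simp only [h2, h3, if_false]
      exact hE (j + 1) (by omega)
  · have hback : ∀ k, k < m → ∃ k', k' < m - 1 ∧
        (if k' ≤ i then e k' else e (k' + 1)) = e k := by
      intro k hk
      rcases Nat.lt_trichotomy k (i + 1) with h1 | h1 | h1
      · have h2 : k ≤ i := by omega
        refine ⟨k, by omega, ?_⟩
        simp only [h2, if_true]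
      · refine ⟨i, by omega, ?_⟩
        simp only [le_refl, if_true]
        rw [h1]
        exact he
      · have h2 : ¬ (k - 1 ≤ i) := by omega
        have h3 : k - 1 + 1 = k := by omega
        refine ⟨k - 1, by omega, ?_⟩
        simp only [h2, if_false]
        rw [h3]
    obtain ⟨a', ha', hea⟩ := hback a ha
    obtain ⟨b', hb', heb⟩ := hback b hb
    refine ⟨a', b', ha', hb', ?_⟩
    intro hcon
    exact hab (hea.symm.trans (hcon.trans heb))

/-- Cutting a chain at two equal hyperedges `e a = e b`, `a + 1 < b`, `e (a + 1) ≠ e b`.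

Proof. The chain `v (a + 1), .., v b` with the hyperedges `e (a + 1), .., e b`, of length `b - a`:
`v' j = v (a + 1 + j)` for `j < b - a` and `v' (b - a) = v (a + 1)` (e.g.
`v' j = v (a + 1 + j % (b - a))`); `v (a + 1)` lies in `e a = e b`. -/
theorem Closed.cut {E W : Type} {n : ℕ} {x : E → W → Fin n} {m : ℕ} {v : ℕ → W × Fin n}
    {e : ℕ → E} (h : Closed x m v e) {a b : ℕ} (hab : a + 1 < b) (hb : b < m) (he : e a = e b)
    (hne : e (a + 1) ≠ e b) : ∃ v' e', Closed x (b - a) v' e' := by
  obtain ⟨hm, hinj, hcl, hE, -⟩ := h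
  refine ⟨fun j => v (a + 1 + j % (b - a)), fun j => e (a + 1 + j), by omega, ?_, ?_, ?_, ?_⟩
  · intro p q hp hq hpq
    simp only [Nat.mod_eq_of_lt hp, Nat.mod_eq_of_lt hq] at hpq
    have := hinj _ _ (by omega) (by omega) hpq
    omega
  · simp only [Nat.mod_self, Nat.zero_mod]
  · intro j hj
    refine ⟨?_, ?_⟩
    · simp only [Nat.mod_eq_of_lt hj]
      exact (hE (a + 1 + j) (by omega)).1
    · rcases Nat.lt_or_ge (j + 1) (b - a) with h1 | h1
      · simp only [Nat.mod_eq_of_lt h1]
        exact (hE (a + 1 + j) (by omega)).2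
      · have h2 : j + 1 = b - a := by omega
        have h3 : a + 1 + j = b := by omega
        simp only [h2, Nat.mod_self, h3, Nat.add_zero]
        rw [← he]
        exact (hE a (by omega)).2
  · refine ⟨0, b - a - 1, by omega, by omega, ?_⟩
    have h3 : a + 1 + (b - a - 1) = b := by omega
    simp only [h3, Nat.add_zero]
    exact hne

/-- A closed chain with pairwise distinct hyperedges is a pattern.

Proof. `e' j = e j`, `c j = (v j).1`, `j : Fin m`. `c j ≠ c (nx j)`: the hyperedge `e j` contains
the distinct vertices `v j` and `v (j + 1)` (`= v (nx j)`, also for `j = m - 1` as `v m = v 0`), and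
it has one vertex in every class. -/
theorem Closed.pat {E W : Type} {n : ℕ} {x : E → W → Fin n} {m : ℕ} {v : ℕ → W × Fin n}
    {e : ℕ → E} (h : Closed x m v e) (he : ∀ i j, i < m → j < m → e i = e j → i = j) :
    ∃ (e' : Fin m → E) (c : Fin m → W), Pat x e' c := by
  obtain ⟨hm, hinj, hcl, hE, -⟩ := h
  have hnx : ∀ j : Fin m, v (j.1 + 1) = v (nx j).1 := by
    intro j
    have h0 : (nx j).1 = (j.1 + 1) % m := rfl
    rw [h0]
    rcases Nat.lt_or_ge (j.1 + 1) m with h1 | h1
    · rw [Nat.mod_eq_of_lt h1]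
    · have h2 : j.1 + 1 = m := by
        have := j.2
        omega
      rw [h2, Nat.mod_self]
      exact hcl
  refine ⟨fun j => e j.1, fun j => (v j.1).1, ?_, ?_, ?_⟩
  · intro p q hpq
    exact Fin.ext (he p.1 q.1 p.2 q.2 hpq)
  · intro j hj
    obtain ⟨h1, h2⟩ := hE j.1 j.2
    rw [hnx j] at h2
    have h3 : v j.1 = v (nx j).1 := by
      refine Prod.ext hj ?_
      rw [← h1, ← h2]
      exact congrArg (x (e j.1)) hj
    have h4 : j.1 = (j.1 + 1) % m := hinj _ _ j.2 (nx j).2 h3
    have hj2 := j.2
    rcases Nat.lt_or_ge (j.1 + 1) m with h5 | h5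
    · rw [Nat.mod_eq_of_lt h5] at h4
      omega
    · have h6 : j.1 + 1 = m := by omega
      rw [h6, Nat.mod_self] at h4
      omega
  · intro j
    obtain ⟨h1, h2⟩ := hE j.1 j.2
    rw [hnx j] at h2
    exact h2.trans (hE (nx j).1 (nx j).2).1.symm

/-- Proof. Strong induction on `m`. If `e i = e (i + 1)` for some `i` with `i + 1 < m` use
`Closed.step`. Otherwise, if `e a = e b` for some `a < b < m` then `a + 1 < b`, and `Closed.cut`
applies (`e (a + 1) ≠ e a = e b`), `b - a < m`. Otherwise `Closed.pat`. -/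
theorem Closed.exists_pat {E W : Type} {n : ℕ} {x : E → W → Fin n} {m : ℕ} {v : ℕ → W × Fin n}
    {e : ℕ → E} (h : Closed x m v e) :
    ∃ m', 2 ≤ m' ∧ m' ≤ m ∧ ∃ (e' : Fin m' → E) (c : Fin m' → W), Pat x e' c := by
  induction m using Nat.strong_induction_on generalizing v e with
  | _ m ih =>
    have hm : 2 ≤ m := h.1
    by_cases h1 : ∃ i, i + 1 < m ∧ e i = e (i + 1)
    · obtain ⟨i, hi, hei⟩ := h1
      obtain ⟨v', e', h'⟩ := h.step hi hei
      obtain ⟨m', h2, h3, h4⟩ := ih (m - 1) (by omega) h'
      exact ⟨m', h2, by omega, h4⟩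
    · by_cases h2 : ∃ a b, a < b ∧ b < m ∧ e a = e b
      · obtain ⟨a, b, hab, hb, heab⟩ := h2
        have h3 : a + 1 ≠ b := by
          intro hcon
          refine h1 ⟨a, by omega, ?_⟩
          rw [hcon]
          exact heab
        have h4 : e (a + 1) ≠ e b := by
          intro hcon
          exact h1 ⟨a, by omega, heab.trans hcon.symm⟩
        obtain ⟨v', e', h'⟩ := h.cut (a := a) (b := b) (by omega) hb heab h4
        obtain ⟨m', h5, h6, h7⟩ := ih (b - a) (by omega) h'
        exact ⟨m', h5, by omega, h7⟩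
      · refine ⟨m, hm, le_rfl, h.pat ?_⟩
        intro i j hi hj hij
        rcases Nat.lt_trichotomy i j with h3 | h3 | h3
        · exact absurd ⟨i, j, h3, hj, hij⟩ h2
        · exact h3
        · exact absurd ⟨j, i, h3, hi, hij.symm⟩ h2

end Pool.Agent.Lib.MP_e3911d_H
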