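import Mathlib

/-!
# MP_e3911d_co, almost bipartite graphs: the family for the cycle
-/

set_option autoImplicit false

namespace Pool.Agent.Lib.MP_e3911d_H

/-- A cycle has a family of vertex sets inducing bipartite graphs, indexed by `Fin g`: everything
for even `g`, the complement of one vertex for odd `g`.

Proof. `g = m + 3`. `C s = univ` for even `g`, with the parity of the vertex as colouring;
`C s = {v | v ≠ s}` for odd `g`, with the parity of `(v - s).val` as colouring: for neighbours
`v`, `v + 1` different from `s` we have `(v + 1 - s).val = (v - s).val + 1` (there is no overflow as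
`v + 1 - s ≠ 0`). `ncard {s | v ∈ C s}` is `g`, respectively `g - 1`. -/
theorem cycle_family (g : ℕ) (hg : 3 ≤ g) : ∃ C : Fin g → Set (Fin g),
    (∀ s, ((SimpleGraph.cycleGraph g).comap
      (Subtype.val : {v // v ∈ C s} → Fin g)).Colorable 2) ∧
    ∀ v, (1 - (if Even g then (0 : ℝ) else 1 / g)) * g ≤ (Set.ncard {s | v ∈ C s} : ℝ) := by
  classical
  obtain ⟨m, rfl⟩ : ∃ m, g = m + 2 := ⟨g - 2, by omega⟩
  have key : ∀ (C : Set (Fin (m + 2))) (f : Fin (m + 2) → ℕ),
      (∀ u ∈ C, ∀ v ∈ C, u - v = 1 → f u % 2 ≠ f v % 2) →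
      ((SimpleGraph.cycleGraph (m + 2)).comap
        (Subtype.val : {v // v ∈ C} → Fin (m + 2))).Colorable 2 := by
    intro C f hf
    refine ⟨SimpleGraph.Coloring.mk (fun v => ⟨f v.1 % 2, Nat.mod_lt _ two_pos⟩) ?_⟩
    intro u v huv heq
    have h1 : f u.1 % 2 = f v.1 % 2 := congrArg Fin.val heq
    rw [SimpleGraph.comap_adj, SimpleGraph.cycleGraph_adj] at huv
    rcases huv with h | h
    · exact hf _ u.2 _ v.2 h h1
    · exact hf _ v.2 _ u.2 h h1.symm
  have hstep : ∀ a b : Fin (m + 2), a - b = 1 → a.val = (b.val + 1) % (m + 2) := by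
    intro a b h
    rw [sub_eq_iff_eq_add] at h
    rw [h, Fin.val_add, Fin.val_one, add_comm]
  have hpos : (0 : ℝ) < ((m + 2 : ℕ) : ℝ) := by positivity
  by_cases he : Even (m + 2)
  · refine ⟨fun _ => Set.univ, fun s => key _ (fun v => v.val) ?_, fun v => ?_⟩
    · intro u _ v _ h
      have h1 := hstep u v h
      obtain ⟨k, hk⟩ := he
      rcases lt_or_ge (v.val + 1) (m + 2) with h3 | h3
      · rw [Nat.mod_eq_of_lt h3] at h1
        simp only [h1]
        omega
      · have h4 : v.val + 1 = m + 2 := by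
          have := v.isLt
          omega
        rw [h4, Nat.mod_self] at h1
        simp only [h1]
        omega
    · rw [if_pos he]
      have h1 : {s : Fin (m + 2) | v ∈ (fun _ : Fin (m + 2) => (Set.univ : Set (Fin (m + 2)))) s} =
          Set.univ := by
        ext
        simp
      rw [h1, Set.ncard_univ, Nat.card_eq_fintype_card, Fintype.card_fin]
      simp
  · refine ⟨fun s => {v | v ≠ s}, fun s => key _ (fun v => (v - s).val) ?_, fun v => ?_⟩
    · intro u hu v _ h
      have h0 : (u - s) - (v - s) = 1 := by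
        rw [sub_sub_sub_cancel_right]
        exact h
      have h1 := hstep _ _ h0
      rcases lt_or_ge ((v - s).val + 1) (m + 2) with h3 | h3
      · rw [Nat.mod_eq_of_lt h3] at h1
        simp only [h1]
        omega
      · have h4 : (v - s).val + 1 = m + 2 := by
          have := (v - s).isLt
          omega
        rw [h4, Nat.mod_self] at h1
        have h5 : u - s = 0 := Fin.ext h1
        exact absurd (sub_eq_zero.1 h5) hu
    · rw [if_neg he]
      have h1 : {s : Fin (m + 2) | v ∈ (fun s : Fin (m + 2) => {v | v ≠ s}) s} = {v}ᶜ := by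
        ext s
        simp only [Set.mem_setOf_eq, Set.mem_compl_iff, Set.mem_singleton_iff]
        exact ne_comm
      have h2 := Set.ncard_add_ncard_compl ({v} : Set (Fin (m + 2)))
      rw [Set.ncard_singleton, Nat.card_eq_fintype_card, Fintype.card_fin] at h2
      rw [h1]
      have h3 : (1 : ℝ) + (Set.ncard ({v}ᶜ : Set (Fin (m + 2))) : ℝ) = ((m + 2 : ℕ) : ℝ) := by
        exact_mod_cast h2
      have h4 : (1 - 1 / ((m + 2 : ℕ) : ℝ)) * ((m + 2 : ℕ) : ℝ) = ((m + 2 : ℕ) : ℝ) - 1 := by
        rw [sub_mul, one_mul, one_div, inv_mul_cancel₀ (ne_of_gt hpos)]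
      linarith

end Pool.Agent.Lib.MP_e3911d_H
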