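import Pool.Agent.Lib.MP_e3911d_co.Semi
import Pool.Agent.Lib.MP_e3911d_co.Girth

/-!
# MP_e3911d_co, homomorphism dichotomy: definitions

Text of the proof: the docstrings of the modules of this folder (and team-store,
`MP_e3911d_h6.md`). `L = max g 4` in the applications.
-/

set_option autoImplicit false

namespace Pool.Agent.Lib.MP_e3911d_H

open Pool.Agent.Lib.MP_e3911d_co (SemiTransitive)

/-- `H` has an acyclic orientation in which no directed path on at least `L` vertices has adjacent
ends. -/
def Good (L : ℕ) {V : Type} (H : SimpleGraph V) : Prop :=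
  ∃ D : V → V → Prop,
    (∀ u v, D u v → H.Adj u v) ∧
    (∀ u v, H.Adj u v → (D u v ∨ D v u)) ∧
    (∀ u v, D u v → ¬ D v u) ∧
    (∀ v, ¬ Relation.TransGen D v v) ∧
    (∀ k : ℕ, L ≤ k + 1 → ∀ p : ℕ → V,
      (∀ i j, i ≤ k → j ≤ k → p i = p j → i = j) →
      (∀ i, i < k → D (p i) (p (i + 1))) → ¬ H.Adj (p 0) (p k))

/-- The vertices of `G` have a partition into `r` parts each of which induces a graph with the
property `P`. -/
def Splits (r : ℕ) (P : (V : Type) → SimpleGraph V → Prop) {V : Type} (G : SimpleGraph V) : Prop :=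
  ∃ c : V → Fin r, ∀ i, P {v // c v = i} (G.comap Subtype.val)

/-- The properties as functions of the type. -/
def SemiP (V : Type) (G : SimpleGraph V) : Prop := SemiTransitive G

/-- The properties as functions of the type. -/
def GoodP (L : ℕ) (V : Type) (H : SimpleGraph V) : Prop := Good L H

/-- Heights of an acyclic relation on a finite type. Proof. `h v` is the number of the `u` with
`TransGen D u v` (as in `not_semi` of Semi.lean). -/
theorem exists_height {V : Type} [Finite V] (D : V → V → Prop)
    (h : ∀ v, ¬ Relation.TransGen D v v) : ∃ f : V → ℕ, ∀ u v, D u v → f u < f v := by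
  classical
  have := Fintype.ofFinite V
  refine ⟨fun v => (Finset.univ.filter fun u => Relation.TransGen D u v).card,
    fun u v huv => ?_⟩
  apply Finset.card_lt_card
  rw [Finset.ssubset_iff_of_subset]
  · exact ⟨u, Finset.mem_filter.2 ⟨Finset.mem_univ _, Relation.TransGen.single huv⟩, fun h1 =>
      h u (Finset.mem_filter.1 h1).2⟩
  · intro w hw
    exact Finset.mem_filter.2 ⟨Finset.mem_univ _, (Finset.mem_filter.1 hw).2.tail huv⟩

/-- Criterion with heights: `f` is injective on the edges (different at adjacent vertices) and there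
is no sequence `p 0, .., p k`, `L ≤ k + 1`, of vertices, consecutive ones adjacent, `f` increasing,
with adjacent ends. Proof. `D u v := H.Adj u v ∧ f u < f v`. -/
theorem good_of_height {L : ℕ} {V : Type} {H : SimpleGraph V} (f : V → ℕ)
    (h1 : ∀ u v, H.Adj u v → f u ≠ f v)
    (h2 : ∀ k : ℕ, L ≤ k + 1 → ∀ p : ℕ → V, (∀ i, i < k → H.Adj (p i) (p (i + 1))) →
      (∀ i, i < k → f (p i) < f (p (i + 1))) → ¬ H.Adj (p 0) (p k)) : Good L H := by
  have hmono : ∀ a b, Relation.TransGen (fun u v => H.Adj u v ∧ f u < f v) a b → f a < f b := by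
    intro a b h
    induction h with
    | single h => exact h.2
    | tail _ h ih => exact lt_trans ih h.2
  refine ⟨fun u v => H.Adj u v ∧ f u < f v, fun u v h => h.1, ?_, ?_, ?_, ?_⟩
  · intro u v huv
    rcases lt_or_gt_of_ne (h1 u v huv) with h | h
    · exact Or.inl ⟨huv, h⟩
    · exact Or.inr ⟨huv.symm, h⟩
  · rintro u v ⟨_, h3⟩ ⟨_, h4⟩
    exact absurd h3 (not_lt.2 h4.le)
  · intro v hv
    exact lt_irrefl _ (hmono v v hv)
  · intro k hk p _ hD
    exact h2 k hk p (fun i hi => (hD i hi).1) fun i hi => (hD i hi).2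

/-- The converse: heights of a good graph. Proof. `exists_height` for the orientation; adjacent
vertices have different heights, and `f (p i) < f (p (i + 1))` forces the arc; the `p i` are
distinct since `f` is increasing along `p`. -/
theorem Good.height {L : ℕ} {V : Type} [Finite V] {H : SimpleGraph V} (h : Good L H) :
    ∃ f : V → ℕ, (∀ u v, H.Adj u v → f u ≠ f v) ∧
      ∀ k : ℕ, L ≤ k + 1 → ∀ p : ℕ → V, (∀ i, i < k → H.Adj (p i) (p (i + 1))) →
        (∀ i, i < k → f (p i) < f (p (i + 1))) → ¬ H.Adj (p 0) (p k) := by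
  obtain ⟨D, h1, h2, _, h4, h5⟩ := h
  obtain ⟨f, hf⟩ := exists_height D h4
  refine ⟨f, ?_, ?_⟩
  · intro u v huv
    rcases h2 u v huv with h | h
    · exact (hf _ _ h).ne
    · exact (hf _ _ h).ne'
  · intro k hk p hadj hlt
    have hmono : ∀ j, j ≤ k → ∀ i, i < j → f (p i) < f (p j) := by
      intro j
      induction j with
      | zero =>
        intro _ i hi
        exact absurd hi (Nat.not_lt_zero i)
      | succ j ih =>
        intro hj i hi
        have h6 := hlt j (by omega)
        rcases Nat.lt_or_ge i j with h7 | h7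
        · exact lt_trans (ih (by omega) i h7) h6
        · have h8 : i = j := by omega
          rw [h8]
          exact h6
    refine h5 k hk p ?_ ?_
    · intro i j hi hj hij
      rcases lt_trichotomy i j with h6 | h6 | h6
      · have h7 := hmono j hj i h6
        rw [hij] at h7
        exact absurd h7 (lt_irrefl _)
      · exact h6
      · have h7 := hmono i hi j h6
        rw [hij] at h7
        exact absurd h7 (lt_irrefl _)
    · intro i hi
      rcases h2 _ _ (hadj i hi) with h6 | h6
      · exact h6
      · exact absurd (hlt i hi) (not_lt.2 (hf _ _ h6).le)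

/-- Good graphs are closed under homomorphic preimages. Proof. Pull back the heights
(`Good.height`, `good_of_height`). -/
theorem Good.hom {L : ℕ} {V W : Type} [Finite W] {G : SimpleGraph V} {H : SimpleGraph W}
    (h : Good L H) (φ : G →g H) : Good L G := by
  obtain ⟨f, h1, h2⟩ := h.height
  refine good_of_height (fun v => f (φ v)) (fun u v huv => h1 _ _ (φ.map_adj huv)) ?_
  intro k hk p hadj hlt h0
  exact h2 k hk (fun i => φ (p i)) (fun i hi => φ.map_adj (hadj i hi)) hlt (φ.map_adj h0)

/-- Splitting into good parts is closed under homomorphic preimages. Proof. `c ∘ φ`,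
`Good.hom` on the parts. -/
theorem splits_good_hom {r L : ℕ} {V W : Type} [Finite W] {G : SimpleGraph V} {H : SimpleGraph W}
    (h : Splits r (GoodP L) H) (φ : G →g H) : Splits r (GoodP L) G := by
  obtain ⟨c, hc⟩ := h
  refine ⟨fun v => c (φ v), fun i => ?_⟩
  have h1 : Good L (H.comap (Subtype.val : {w // c w = i} → W)) := hc i
  exact Good.hom h1 ⟨fun v => ⟨φ v.1, v.2⟩, fun {_ _} h => φ.map_adj h⟩

/-- A good graph of girth at least `g` is semi-transitive, if `L ≤ max g 4`.
Proof. The orientation `D` of `Good`. A directed path `p 0, .., p k`, with the arc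
`D (p 0) (p k)`, has `k + 1 < L`. If `k ≤ 1` then there is nothing to prove (`k = 0`: no
`i < j ≤ 0`; `k = 1`: `i = 0`, `j = 1`). If `k ≥ 2` then `egirth_le_of_path` gives
`G.egirth ≤ k + 1`, so `g ≤ k + 1`, so `L = 4`, `k = 2`, and the three arcs are the hypotheses. -/
theorem semi_of_good {g L : ℕ} (hL : L ≤ max g 4) {V : Type} {G : SimpleGraph V}
    (h : Good L G) (hg : (g : ℕ∞) ≤ G.egirth) : SemiTransitive G := by
  obtain ⟨D, h1, h2, h3, h4, h5⟩ := h
  refine ⟨D, h1, h2, h3, h4, ?_⟩
  intro k p hp hD h0 i j hij hj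
  have hk : k + 1 < L := by
    by_contra hcon
    exact h5 k (not_lt.1 hcon) p hp hD (h1 _ _ h0)
  rcases Nat.lt_or_ge k 2 with hk2 | hk2
  · have hi : i = 0 := by omega
    have hj1 : j = 1 := by omega
    have hk1 : k = 1 := by omega
    rw [hk1] at h0
    rw [hi, hj1]
    exact h0
  · have h6 := Pool.Agent.Lib.MP_e3911d_co.egirth_le_of_path k hk2 p hp
      (fun i hi => h1 _ _ (hD i hi)) (h1 _ _ h0).symm
    have h7 : g ≤ k + 1 := by exact_mod_cast hg.trans h6
    have h8 : k = 2 := by
      rcases le_total g 4 with h9 | h9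
      · rw [max_eq_right h9] at hL
        omega
      · rw [max_eq_left h9] at hL
        omega
    subst h8
    have h9 : (i = 0 ∧ j = 1) ∨ (i = 0 ∧ j = 2) ∨ (i = 1 ∧ j = 2) := by omega
    rcases h9 with ⟨rfl, rfl⟩ | ⟨rfl, rfl⟩ | ⟨rfl, rfl⟩
    · exact hD 0 (by norm_num)
    · exact h0
    · exact hD 1 (by norm_num)

/-- The easy direction. Proof. `splits_good_hom`, and `semi_of_good` on the parts (the girth of an
induced subgraph is at least the girth, e.g. `le_egirth` and `Walk.map`, or
`IsContained.egirth_le` as in Girth.lean). -/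
theorem splits_semi_of_good {r g L : ℕ} (hL : L ≤ max g 4) {V W : Type} [Finite W]
    {G : SimpleGraph V} {H : SimpleGraph W} (h : Splits r (GoodP L) H) (φ : G →g H)
    (hg : (g : ℕ∞) ≤ G.egirth) : Splits r SemiP G := by
  obtain ⟨c, hc⟩ := splits_good_hom h φ
  refine ⟨c, fun i => ?_⟩
  have h1 : Good L (G.comap (Subtype.val : {v // c v = i} → V)) := hc i
  refine semi_of_good hL h1 (hg.trans ?_)
  have h2 : (G.comap (Subtype.val : {v // c v = i} → V)).IsContained G :=
    ⟨⟨⟨Subtype.val, fun {_ _} h => h⟩, Subtype.val_injective⟩⟩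
  exact h2.egirth_le

/-- Splitting into semi-transitive parts is hereditary. Proof. `c ∘ f`, `SemiTransitive.comap`. -/
theorem splits_semi_comap {r : ℕ} {V W : Type} {G : SimpleGraph V} (h : Splits r SemiP G)
    (f : W → V) (hf : Function.Injective f) : Splits r SemiP (G.comap f) := by
  obtain ⟨c, hc⟩ := h
  refine ⟨fun w => c (f w), fun i => ?_⟩
  have h1 : SemiTransitive (G.comap (Subtype.val : {v // c v = i} → V)) := hc i
  exact h1.comap (fun w : {w // c (f w) = i} => (⟨f w.1, w.2⟩ : {v // c v = i}))
    fun a b hab => Subtype.ext (hf (congrArg Subtype.val hab))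

end Pool.Agent.Lib.MP_e3911d_H
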