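import Mathlib

/-!
# MP_e3911d_co, almost bipartite graphs: the fractional chromatic number
-/

set_option autoImplicit false

namespace Pool.Agent.Lib.MP_e3911d_H

/-- The fractional chromatic number: the infimum of the total weights of the nonnegative weights on
the independent sets which give every vertex weight at least `1`. -/
noncomputable def fracChrom {n : ℕ} (G : SimpleGraph (Fin n)) : ℝ :=
  sInf {x : ℝ | ∃ w : Finset (Fin n) → ℝ, (∀ I, 0 ≤ w I) ∧
    (∀ I, w I ≠ 0 → ∀ u ∈ I, ∀ v ∈ I, ¬ G.Adj u v) ∧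
    (∀ v, 1 ≤ ∑ I with v ∈ I, w I) ∧ x = ∑ I, w I}

/-- An upper bound from a family of induced bipartite graphs.

Proof. The weight of `I` is the number of the pairs `(s, b)` such that `I` is the colour class `b`
of `B s`, divided by `(1 - δ) * (m + 1)`. -/
theorem fracChrom_le {n m : ℕ} {G : SimpleGraph (Fin n)} (B : Fin (m + 1) → Set (Fin n)) {δ : ℝ}
    (hδ : δ < 1) (h1 : ∀ s, (G.comap (Subtype.val : {v // v ∈ B s} → Fin n)).Colorable 2)
    (h2 : ∀ v, (1 - δ) * ((m : ℝ) + 1) ≤ (Set.ncard {s | v ∈ B s} : ℝ)) :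
    fracChrom G ≤ 2 / (1 - δ) := by
  classical
  have hc : ∀ s, ∃ c : Fin n → Fin 2, ∀ u v, u ∈ B s → v ∈ B s → G.Adj u v → c u ≠ c v := by
    intro s
    obtain ⟨c⟩ := h1 s
    refine ⟨fun v => if h : v ∈ B s then c ⟨v, h⟩ else 0, fun u v hu hv huv => ?_⟩
    simp only [dif_pos hu, dif_pos hv]
    exact c.valid (v := ⟨u, hu⟩) (w := ⟨v, hv⟩) huv
  choose c hc using hc
  have hd : (0 : ℝ) < 1 - δ := by linarith
  have hm : (0 : ℝ) < (m : ℝ) + 1 := by positivity
  have hdm : (0 : ℝ) < (1 - δ) * ((m : ℝ) + 1) := mul_pos hd hm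
  let K : Fin (m + 1) × Fin 2 → Finset (Fin n) :=
    fun s => Finset.univ.filter fun v => v ∈ B s.1 ∧ c s.1 v = s.2
  have hK : ∀ s v, v ∈ K s ↔ v ∈ B s.1 ∧ c s.1 v = s.2 := by
    intro s v
    simp [K]
  let w : Finset (Fin n) → ℝ :=
    fun I => ((Finset.univ.filter fun s => K s = I).card : ℝ) / ((1 - δ) * ((m : ℝ) + 1))
  have hw : ∀ (P : Finset (Fin n) → Prop) [DecidablePred P], ∑ I with P I, w I =
      ((Finset.univ.filter fun s => P (K s)).card : ℝ) / ((1 - δ) * ((m : ℝ) + 1)) := by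
    intro P _
    rw [← Finset.sum_div]
    congr 1
    rw [← Nat.cast_sum]
    congr 1
    rw [Finset.card_eq_sum_card_fiberwise (f := K) (t := Finset.univ.filter P)]
    · refine Finset.sum_congr rfl fun I hI => ?_
      congr 1
      ext s
      simp only [Finset.mem_filter, Finset.mem_univ, true_and] at hI ⊢
      constructor
      · intro h
        exact ⟨h ▸ hI, h⟩
      · exact fun h => h.2
    · intro s hs
      simpa using hs
  have hbdd : BddBelow {x : ℝ | ∃ w : Finset (Fin n) → ℝ, (∀ I, 0 ≤ w I) ∧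
      (∀ I, w I ≠ 0 → ∀ u ∈ I, ∀ v ∈ I, ¬ G.Adj u v) ∧
      (∀ v, 1 ≤ ∑ I with v ∈ I, w I) ∧ x = ∑ I, w I} := by
    refine ⟨0, ?_⟩
    rintro x ⟨w, hw0, _, _, rfl⟩
    exact Finset.sum_nonneg fun I _ => hw0 I
  refine csInf_le hbdd ⟨w, fun I => by positivity, ?_, ?_, ?_⟩
  · intro I hI u hu v hv huv
    have h3 : (Finset.univ.filter fun s => K s = I).card ≠ 0 := by
      intro h0
      apply hI
      simp only [w, h0]
      simp
    obtain ⟨s, hs⟩ := Finset.card_pos.1 (Nat.pos_of_ne_zero h3)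
    have h4 : K s = I := (Finset.mem_filter.1 hs).2
    rw [← h4, hK] at hu hv
    exact hc s.1 u v hu.1 hv.1 huv (hu.2.trans hv.2.symm)
  · intro v
    rw [hw fun I => v ∈ I, one_le_div hdm]
    refine (h2 v).trans ?_
    have h5 : Set.ncard {s | v ∈ B s} ≤ (Finset.univ.filter fun s => v ∈ K s).card := by
      rw [← Set.ncard_coe_finset]
      refine Set.ncard_le_ncard_of_injOn (fun s => (s, c s v)) ?_ ?_ (Set.toFinite _)
      · intro s hs
        simp only [Finset.coe_filter, Finset.mem_univ, true_and, Set.mem_ofPred_eq]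
        exact (hK _ _).2 ⟨hs, rfl⟩
      · intro s _ t _ hst
        exact (Prod.mk.inj hst).1
    exact_mod_cast h5
  · have h3 := hw fun _ => True
    simp only [Finset.filter_true] at h3
    rw [h3, Finset.card_univ, Fintype.card_prod, Fintype.card_fin, Fintype.card_fin]
    push_cast
    field_simp

/-- The lower bound from an odd cycle.

Proof. An independent set contains at most `(g - 1) / 2` vertices of the cycle; sum the inequalities
`1 ≤ ∑ I with v ∈ I, w I` over the vertices of the cycle. -/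
theorem le_fracChrom {n g : ℕ} {G : SimpleGraph (Fin n)} (hg : Odd g) (hg3 : 3 ≤ g)
    (f : Fin g → Fin n) (hf : ∀ i j, (SimpleGraph.cycleGraph g).Adj i j → G.Adj (f i) (f j)) :
    2 * (g : ℝ) / (g - 1) ≤ fracChrom G := by
  classical
  have hgz : NeZero g := ⟨by omega⟩
  have hg1 : (0 : ℝ) < (g : ℝ) - 1 := by
    have : (3 : ℝ) ≤ g := by exact_mod_cast hg3
    linarith
  have hind : ∀ I : Finset (Fin n), (∀ u ∈ I, ∀ v ∈ I, ¬ G.Adj u v) →
      2 * (Finset.univ.filter fun i => f i ∈ I).card + 1 ≤ g := by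
    intro I hI
    have h1 : Disjoint (Finset.univ.filter fun i => f i ∈ I)
        ((Finset.univ.filter fun i => f i ∈ I).image (fun i => i + 1)) := by
      rw [Finset.disjoint_left]
      intro i hi hi'
      obtain ⟨j, hj, rfl⟩ := Finset.mem_image.1 hi'
      refine hI _ (Finset.mem_filter.1 hj).2 _ (Finset.mem_filter.1 hi).2 (hf _ _ ?_)
      obtain ⟨m, rfl⟩ : ∃ m, g = m + 2 := ⟨g - 2, by omega⟩
      rw [SimpleGraph.cycleGraph_adj]
      right
      rw [add_sub_cancel_left]
    have h2 := Finset.card_le_univ ((Finset.univ.filter fun i => f i ∈ I) ∪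
        ((Finset.univ.filter fun i => f i ∈ I).image (fun i => i + 1)))
    rw [Finset.card_union_of_disjoint h1, Finset.card_image_of_injective _
      (add_left_injective 1), Fintype.card_fin] at h2
    obtain ⟨t, ht⟩ := hg
    omega
  refine le_csInf ⟨_, fun I => if ∃ v, I = {v} then 1 else 0, ?_, ?_, ?_, rfl⟩ ?_
  · intro I
    beta_reduce
    split_ifs <;> norm_num
  · intro I hI u hu v hv
    have h1 : ∃ v, I = {v} := by
      by_contra hcon
      exact hI (if_neg hcon)
    obtain ⟨x, rfl⟩ := h1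
    rw [Finset.mem_singleton.1 hu, Finset.mem_singleton.1 hv]
    exact G.irrefl
  · intro v
    refine le_trans ?_ (Finset.single_le_sum (s := Finset.univ.filter fun I : Finset (Fin n) =>
      v ∈ I) (f := fun I => if ∃ v, I = {v} then (1 : ℝ) else 0) (fun I _ => ?_)
      (a := {v}) ?_)
    · rw [if_pos ⟨v, rfl⟩]
    · split_ifs <;> norm_num
    · simp
  · rintro x ⟨w, hw0, hw1, hw2, rfl⟩
    rw [div_le_iff₀ hg1]
    have h3 : (g : ℝ) ≤ ∑ i : Fin g, ∑ I with f i ∈ I, w I := by
      calc (g : ℝ) = ∑ _i : Fin g, (1 : ℝ) := by simp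
        _ ≤ _ := Finset.sum_le_sum fun i _ => hw2 (f i)
    have h4 : ∑ i : Fin g, ∑ I with f i ∈ I, w I =
        ∑ I, ((Finset.univ.filter fun i => f i ∈ I).card : ℝ) * w I := by
      simp only [Finset.sum_filter]
      rw [Finset.sum_comm]
      refine Finset.sum_congr rfl fun I _ => ?_
      rw [← Finset.sum_filter, Finset.sum_const, nsmul_eq_mul]
    have h5 : ∑ I, ((Finset.univ.filter fun i => f i ∈ I).card : ℝ) * w I ≤
        ∑ I, (((g : ℝ) - 1) / 2) * w I := by
      refine Finset.sum_le_sum fun I _ => ?_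
      rcases eq_or_ne (w I) 0 with h0 | h0
      · rw [h0, mul_zero, mul_zero]
      · refine mul_le_mul_of_nonneg_right ?_ (hw0 I)
        have h6 := hind I (hw1 I h0)
        have h7 : (2 : ℝ) * ((Finset.univ.filter fun i => f i ∈ I).card : ℝ) + 1 ≤ g := by
          exact_mod_cast h6
        linarith
    rw [← Finset.mul_sum] at h5
    rw [h4] at h3
    have h8 := h3.trans h5
    have h9 : (∑ I, w I) * ((g : ℝ) - 1) = 2 * (((g : ℝ) - 1) / 2 * ∑ I, w I) := by ring
    rw [h9]
    linarith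

end Pool.Agent.Lib.MP_e3911d_H
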