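import Pool.Agent.Lib.MP_e3911d_co_H.Chain
import Pool.Agent.Lib.MP_e3911d_co.Girth

/-!
# MP_e3911d_co, homomorphism dichotomy: the graph of a system of tuples
-/

set_option autoImplicit false

namespace Pool.Agent.Lib.MP_e3911d_H

open Pool.Agent.MP_e3911d_co (nx Short nx_injective nx_nx_ne not_short_cycleGraph)

variable {W T E : Type} {n : ℕ}

/-- The graph: for every hyperedge `e` the cycle through its vertices in the classes
`s t j`, `j : Fin (k t)`, where `t = lab e` is the label of `e`. -/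
def gr (lab : E → T) (x : E → W → Fin n) (k : T → ℕ) (s : (t : T) → Fin (k t) → W) :
    SimpleGraph (W × Fin n) where
  Adj u v := u ≠ v ∧ ∃ (e : E) (j : Fin (k (lab e))),
    (u = (s _ j, x e (s _ j)) ∧ v = (s _ (nx j), x e (s _ (nx j)))) ∨
    (v = (s _ j, x e (s _ j)) ∧ u = (s _ (nx j), x e (s _ (nx j))))
  symm := ⟨fun _ _ h => ⟨h.1.symm, h.2.imp fun _ h => h.imp fun _ h => h.symm⟩⟩
  loopless := ⟨fun _ h => h.1 rfl⟩

private theorem Gr_nx_ne {K : ℕ} (hK : 2 ≤ K) (i : Fin K) : i ≠ nx i := by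
  intro h
  have h1 : i.1 = (i.1 + 1) % K := congrArg Fin.val h
  have hi := i.2
  rcases Nat.lt_or_ge (i.1 + 1) K with h2 | h2
  · rw [Nat.mod_eq_of_lt h2] at h1
    omega
  · have h3 : i.1 + 1 = K := by omega
    rw [h3, Nat.mod_self] at h1
    omega

private theorem Gr_cyc {K : ℕ} (hK : 2 ≤ K) (i : Fin K) :
    (SimpleGraph.cycleGraph K).Adj i (nx i) := by
  obtain ⟨m, rfl⟩ : ∃ m, K = m + 2 := ⟨K - 2, by omega⟩
  have h : nx i = i + 1 := by
    apply Fin.ext
    rw [Fin.val_add]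
    rfl
  rw [SimpleGraph.cycleGraph_adj, h]
  right
  exact add_sub_cancel_left i 1

/-- The edges of the graph.  Proof. `nx j ≠ j` if `2 ≤ k t`, and `s t` is injective, so the two
vertices are different. -/
theorem gr_adj (lab : E → T) (x : E → W → Fin n) (k : T → ℕ) (s : (t : T) → Fin (k t) → W)
    (hs : ∀ t, Function.Injective (s t)) (e : E) (h2 : 2 ≤ k (lab e)) (j : Fin (k (lab e))) :
    (gr lab x k s).Adj (s _ j, x e (s _ j)) (s _ (nx j), x e (s _ (nx j))) := by
  refine ⟨fun h => ?_, e, j, Or.inl ⟨rfl, rfl⟩⟩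
  exact Gr_nx_ne h2 j (hs _ (congrArg Prod.fst h))

/-- A closed sequence of vertices all of whose edges come from one hyperedge `e` is not shorter
than `k (lab e)`.

Proof. Write `p j = (s _ (i j), x e (s _ (i j)))` with `i : Fin l → Fin (k (lab e))`, injective as
`p` is; `i j` and `i (nx j)` are cyclic neighbours (`s _` is injective), so this is a closed
sequence of the `cycleGraph (k (lab e))` (`SimpleGraph.cycleGraph_adj`; `nx a = a + 1` in
`Fin (m + 2)`): `not_short_cycleGraph`. -/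
theorem one_edge (lab : E → T) (x : E → W → Fin n) (k : T → ℕ) (s : (t : T) → Fin (k t) → W)
    (hs : ∀ t, Function.Injective (s t)) (e : E) {l : ℕ} (hl : 3 ≤ l) (hlk : l < k (lab e))
    (p : Fin l → W × Fin n) (hp : Function.Injective p)
    (h : ∀ j, ∃ i : Fin (k (lab e)),
      (p j = (s _ i, x e (s _ i)) ∧ p (nx j) = (s _ (nx i), x e (s _ (nx i)))) ∨
      (p (nx j) = (s _ i, x e (s _ i)) ∧ p j = (s _ (nx i), x e (s _ (nx i))))) : False := by
  have hex : ∀ j, ∃ i : Fin (k (lab e)), p j = (s _ i, x e (s _ i)) := by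
    intro j
    obtain ⟨i, hi | hi⟩ := h j
    · exact ⟨i, hi.1⟩
    · exact ⟨nx i, hi.2⟩
  choose a ha using hex
  have hF : ∀ i i' : Fin (k (lab e)), (s _ i, x e (s _ i)) = (s _ i', x e (s _ i')) → i = i' :=
    fun i i' h' => hs _ (congrArg Prod.fst h')
  refine not_short_cycleGraph hl hlk ⟨a, ?_, ?_⟩
  · intro i j hij
    apply hp
    rw [ha, ha, hij]
  · intro j
    obtain ⟨i, hi | hi⟩ := h j
    · have h1 : a j = i := hF _ _ ((ha j).symm.trans hi.1)
      have h2 : a (nx j) = nx i := hF _ _ ((ha (nx j)).symm.trans hi.2)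
      rw [h1, h2]
      exact Gr_cyc (by omega) i
    · have h1 : a j = nx i := hF _ _ ((ha j).symm.trans hi.2)
      have h2 : a (nx j) = i := hF _ _ ((ha (nx j)).symm.trans hi.1)
      rw [h1, h2]
      exact (Gr_cyc (by omega) i).symm

/-- The girth of the graph.

Proof. Let `p : Fin l → W × Fin n` be a closed sequence and `e j` a hyperedge for the edge from
`p j` to `p (nx j)`; it contains both vertices. If all `e j` are equal: `one_edge` (`k (lab e) = 0`
is impossible as `Fin (k (lab e))` is not empty). Otherwise `Closed x l v e'` with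
`v i = p (i % l)`, `e' i = e (i % l)`, and `Closed.exists_pat` contradicts `hsp`. -/
theorem gr_not_short (lab : E → T) (x : E → W → Fin n) (k : T → ℕ)
    (s : (t : T) → Fin (k t) → W) (hs : ∀ t, Function.Injective (s t)) {L : ℕ}
    (hk : ∀ t, k t = 0 ∨ L ≤ k t)
    (hsp : ∀ m, 2 ≤ m → m < L → ∀ (e : Fin m → E) (c : Fin m → W), ¬ Pat x e c) (l : ℕ)
    (hl : 3 ≤ l) (hlL : l < L) : ¬ Short (gr lab x k s) l := by
  rintro ⟨p, hp, hadj⟩
  have hex : ∀ j, ∃ (e : E), ∃ i : Fin (k (lab e)),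
      (p j = (s _ i, x e (s _ i)) ∧ p (nx j) = (s _ (nx i), x e (s _ (nx i)))) ∨
      (p (nx j) = (s _ i, x e (s _ i)) ∧ p j = (s _ (nx i), x e (s _ (nx i)))) :=
    fun j => (hadj j).2
  choose e he using hex
  have hl0 : 0 < l := by omega
  by_cases hall : ∀ j, e j = e ⟨0, hl0⟩
  · have h1 : l < k (lab (e ⟨0, hl0⟩)) := by
      rcases hk (lab (e ⟨0, hl0⟩)) with h2 | h2
      · obtain ⟨i, -⟩ := he ⟨0, hl0⟩
        have := i.2
        omega
      · omega
    exact one_edge lab x k s hs (e ⟨0, hl0⟩) hl h1 p hp fun j => by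
      have h2 := he j
      rw [hall j] at h2
      exact h2
  · rw [not_forall] at hall
    obtain ⟨j0, hj0⟩ := hall
    have hin : ∀ j, x (e j) (p j).1 = (p j).2 ∧ x (e j) (p (nx j)).1 = (p (nx j)).2 := by
      intro j
      obtain ⟨i, hi | hi⟩ := he j
      · rw [hi.1, hi.2]
        exact ⟨rfl, rfl⟩
      · rw [hi.1, hi.2]
        exact ⟨rfl, rfl⟩
    have hc : Closed x l (fun i => p ⟨i % l, Nat.mod_lt _ hl0⟩)
        (fun i => e ⟨i % l, Nat.mod_lt _ hl0⟩) := by
      refine ⟨by omega, ?_, ?_, ?_, ?_⟩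
      · intro i j hi hj hij
        have h1 := congrArg Fin.val (hp hij)
        simpa [Nat.mod_eq_of_lt hi, Nat.mod_eq_of_lt hj] using h1
      · simp
      · intro i hi
        have h1 := hin ⟨i % l, Nat.mod_lt _ hl0⟩
        have h2 : nx (⟨i % l, Nat.mod_lt _ hl0⟩ : Fin l) =
            ⟨(i + 1) % l, Nat.mod_lt _ hl0⟩ := by
          apply Fin.ext
          change (i % l + 1) % l = (i + 1) % l
          rw [Nat.mod_eq_of_lt hi]
        rw [h2] at h1
        exact h1
      · refine ⟨j0.1, 0, j0.2, hl0, ?_⟩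
        have h1 : (⟨j0.1 % l, Nat.mod_lt _ hl0⟩ : Fin l) = j0 :=
          Fin.ext (Nat.mod_eq_of_lt j0.2)
        have h2 : (⟨0 % l, Nat.mod_lt _ hl0⟩ : Fin l) = ⟨0, hl0⟩ := Fin.ext (Nat.zero_mod l)
        change e ⟨j0.1 % l, Nat.mod_lt _ hl0⟩ ≠ e ⟨0 % l, Nat.mod_lt _ hl0⟩
        rw [h1, h2]
        exact hj0
    obtain ⟨m, hm2, hml, e', c, hpat⟩ := hc.exists_pat
    exact hsp m hm2 (by omega) e' c hpat

end Pool.Agent.Lib.MP_e3911d_H
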