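import Mathlib

/-!
# MP_e3911d_co, homomorphism dichotomy: the interval lemma
-/

set_option autoImplicit false

namespace Pool.Agent.Lib.MP_e3911d_H

private theorem intv_aux {W : Type} [DecidableEq W] {n : ℕ} (q : ℕ) (f : W × Fin n → ℕ) (m : ℕ) :
    ∀ (J : Finset W) (B : W → Finset (Fin n)), J.card = m →
      (∀ w ∈ J, m * q ≤ (B w).card) →
      ∃ (o : W → ℕ) (A : W → Finset (Fin n)), (∀ w ∈ J, ∀ w' ∈ J, o w = o w' → w = w') ∧
        (∀ w ∈ J, o w < m) ∧ (∀ w ∈ J, A w ⊆ B w ∧ q ≤ (A w).card) ∧
        ∀ w ∈ J, ∀ w' ∈ J, o w < o w' → ∀ a ∈ A w, ∀ b ∈ A w', f (w, a) ≤ f (w', b) := by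
  classical
  induction m with
  | zero =>
    intro J B hJ _
    rw [Finset.card_eq_zero] at hJ
    subst hJ
    exact ⟨fun _ => 0, B, by simp, by simp, by simp, by simp⟩
  | succ m ih =>
    intro J B hJ hB
    obtain ⟨w1, hw1⟩ : J.Nonempty := by
      rw [← Finset.card_pos, hJ]
      exact Nat.succ_pos m
    have hex : ∃ t : ℕ, ∃ w ∈ J, q ≤ ((B w).filter (fun a => f (w, a) ≤ t)).card := by
      refine ⟨(B w1).sup (fun a => f (w1, a)), w1, hw1, ?_⟩
      have h1 : (B w1).filter (fun a => f (w1, a) ≤ (B w1).sup (fun a => f (w1, a))) = B w1 :=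
        Finset.filter_true_of_mem fun a ha =>
          Finset.le_sup (f := fun a => f (w1, a)) ha
      rw [h1]
      have h2 := hB w1 hw1
      rw [Nat.succ_mul] at h2
      omega
    obtain ⟨w0, hw0, hcard⟩ := Nat.find_spec hex
    have hmin : ∀ t' < Nat.find hex, ∀ w ∈ J,
        ((B w).filter (fun a => f (w, a) ≤ t')).card < q := by
      intro t' ht' w hw
      by_contra hcon
      exact Nat.find_min hex ht' ⟨w, hw, not_lt.1 hcon⟩
    set t := Nat.find hex with ht
    have hB' : ∀ w ∈ J.erase w0, m * q ≤ ((B w).filter (fun a => t ≤ f (w, a))).card := by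
      intro w hw
      have hwJ := Finset.mem_of_mem_erase hw
      have h1 := hB w hwJ
      have h2 := Finset.card_filter_add_card_filter_not (s := B w) (fun a => t ≤ f (w, a))
      have h3 : ((B w).filter (fun a => ¬ t ≤ f (w, a))).card ≤ q := by
        rcases Nat.eq_zero_or_pos t with h0 | h0
        · have h4 : (B w).filter (fun a => ¬ t ≤ f (w, a)) = ∅ := by
            refine Finset.filter_eq_empty_iff.2 fun a _ h => h ?_
            rw [h0]
            exact Nat.zero_le _
          rw [h4, Finset.card_empty]
          exact Nat.zero_le _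
        · refine le_trans (Finset.card_le_card fun a ha => ?_)
            (hmin (t - 1) (by omega) w hwJ).le
          rw [Finset.mem_filter] at ha ⊢
          exact ⟨ha.1, by omega⟩
      rw [Nat.succ_mul] at h1
      omega
    have hcJ : (J.erase w0).card = m := by
      rw [Finset.card_erase_of_mem hw0, hJ]
      rfl
    obtain ⟨o, A, k1, k2, k3, k4⟩ :=
      ih (J.erase w0) (fun w => (B w).filter (fun a => t ≤ f (w, a))) hcJ hB'
    have hme : ∀ {w : W}, w ∈ J → w ≠ w0 → w ∈ J.erase w0 :=
      fun h1 h2 => Finset.mem_erase.2 ⟨h2, h1⟩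
    refine ⟨fun w => if w = w0 then 0 else o w + 1,
      fun w => if w = w0 then (B w0).filter (fun a => f (w0, a) ≤ t) else A w, ?_, ?_, ?_, ?_⟩
    · intro w hw w' hw' h
      by_cases c : w = w0
      · by_cases c' : w' = w0
        · rw [c, c']
        · simp [c, c'] at h
      · by_cases c' : w' = w0
        · simp [c, c'] at h
        · simp only [c, c', if_false] at h
          exact k1 w (hme hw c) w' (hme hw' c') (Nat.succ_injective h)
    · intro w hw
      by_cases c : w = w0
      · simp [c]
      · simp only [c, if_false]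
        exact Nat.succ_lt_succ (k2 w (hme hw c))
    · intro w hw
      by_cases c : w = w0
      · simp only [c, if_true]
        exact ⟨Finset.filter_subset _ _, hcard⟩
      · simp only [c, if_false]
        exact ⟨(k3 w (hme hw c)).1.trans (Finset.filter_subset _ _), (k3 w (hme hw c)).2⟩
    · intro w hw w' hw' h a ha b hb
      by_cases c : w = w0
      · by_cases c' : w' = w0
        · simp [c, c'] at h
        · simp only [c, if_true] at ha
          simp only [c', if_false] at hb
          have h1 := (Finset.mem_filter.1 ha).2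
          have h2 := (Finset.mem_filter.1 ((k3 w' (hme hw' c')).1 hb)).2
          rw [c]
          exact h1.trans h2
      · by_cases c' : w' = w0
        · simp [c, c'] at h
        · simp only [c, c', if_false] at h ha hb
          exact k4 w (hme hw c) w' (hme hw' c') (Nat.lt_of_succ_lt_succ h) a ha b hb

/-- Interval lemma. `f` is any function (an ordering with ties), `B w`, `w ∈ J`, are large subsets
of the classes. There are an order `o` of `J` and subsets `A w` of `B w`, of size at least `q`, such
that `f` on `A w` is at most `f` on `A w'` if `w` is before `w'`.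

Proof. Induction on `J.card`, for all `J` and `B` (`J = ∅`: nothing). Let `t` be the smallest natural
number such that `q ≤ #{a ∈ B w : f (w, a) ≤ t}` for some `w ∈ J` (`Nat.find`; it exists: `J` is not
empty and `B w` has at least `q` elements, take the supremum of `f`); let `w0` be such a `w` and
`A w0 = {a ∈ B w0 : f (w0, a) ≤ t}`. For the other `w ∈ J` let `B' w = {a ∈ B w : t ≤ f (w, a)}`; by
minimality of `t` fewer than `q` elements are removed (none for `t = 0`), so the induction
hypothesis applies to `J.erase w0` and `B'`. Put `o w0 = 0` and `o w = o' w + 1`. -/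
theorem intervals {W : Type} [DecidableEq W] {n : ℕ} (q : ℕ) (f : W × Fin n → ℕ) (J : Finset W)
    (B : W → Finset (Fin n)) (hB : ∀ w ∈ J, J.card * q ≤ (B w).card) :
    ∃ (o : W → ℕ) (A : W → Finset (Fin n)), (∀ w ∈ J, ∀ w' ∈ J, o w = o w' → w = w') ∧
      (∀ w ∈ J, o w < J.card) ∧ (∀ w ∈ J, A w ⊆ B w ∧ q ≤ (A w).card) ∧
      ∀ w ∈ J, ∀ w' ∈ J, o w < o w' → ∀ a ∈ A w, ∀ b ∈ A w', f (w, a) ≤ f (w', b) := by
  exact intv_aux q f J.card J B rfl hB

end Pool.Agent.Lib.MP_e3911d_H
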