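import Pool.Agent.Lib.MP_e3911d_co_H.Master

/-!
# MP_e3911d_co, homomorphism dichotomy: the theorem
-/

set_option autoImplicit false

namespace Pool.Agent.Lib.MP_e3911d_H

open Pool.Agent.Lib.MP_e3911d_co (SemiTransitive)
open Pool.Agent.MP_e3911d_co (nx Short egirth_sum_cycleGraph)

/-- The graph on `W × Fin n`.

Proof. `master H L hL (r + 1) 1`. Suppose that `c : W × Fin n → Fin r` splits `G` into
semi-transitive parts. For every `w` there is an `i : Fin r` with
`n ≤ (r + 1) * ncard {b | c (w, b) = i}` (the sum over `i` of the cardinalities is `n`, and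
`r * n < (r + 1) * n`); choose `c' w = i`. For every `i` the set of the `w` with `c' w = i` is
contained in the set of `master` for `U = {v | c v = i}`, so `H` is good on it (`Good.hom`). -/
theorem exists_blow {W : Type} [Finite W] (H : SimpleGraph W) (L r : ℕ) (hL : 4 ≤ L)
    (hH : ¬ Splits r (GoodP L) H) :
    ∃ (n : ℕ) (G : SimpleGraph (W × Fin n)), Nonempty (G →g H) ∧
      (∀ l, 3 ≤ l → l < L → ¬ Short G l) ∧ ¬ Splits r SemiP G := by
  classical
  have := Fintype.ofFinite W
  obtain ⟨n, G, -, hn, hadj, hsh, hU⟩ := master H L hL (r + 1) 1 (Nat.succ_pos r)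
  refine ⟨n, G, ⟨⟨Prod.fst, fun {u v} h => hadj u v h⟩⟩, hsh, ?_⟩
  rintro ⟨c, hc⟩
  have hpig : ∀ w, ∃ i : Fin r, n ≤ (r + 1) * Set.ncard {b : Fin n | c (w, b) = i} := by
    intro w
    by_contra hcon
    push Not at hcon
    have h1 : ∑ i : Fin r, Set.ncard {b : Fin n | c (w, b) = i} = n := by
      have h2 := Finset.card_eq_sum_card_fiberwise (s := (Finset.univ : Finset (Fin n)))
        (t := (Finset.univ : Finset (Fin r))) (f := fun b => c (w, b))
        (fun _ _ => Finset.mem_coe.2 (Finset.mem_univ _))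
      rw [Finset.card_univ, Fintype.card_fin] at h2
      refine Eq.trans ?_ h2.symm
      refine Finset.sum_congr rfl fun i _ => ?_
      rw [← Set.ncard_coe_finset]
      congr 1
      ext b
      simp
    have h2 : ∑ i : Fin r, (r + 1) * Set.ncard {b : Fin n | c (w, b) = i} ≤
        ∑ _i : Fin r, n := Finset.sum_le_sum fun i _ => (hcon i).le
    rw [← Finset.mul_sum, h1, Finset.sum_const, Finset.card_univ, Fintype.card_fin,
      smul_eq_mul] at h2
    have h3 : (r + 1) * n = r * n + n := Nat.succ_mul r n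
    omega
  choose c' hc' using hpig
  apply hH
  refine ⟨c', fun i => ?_⟩
  have h3 := hU {v | c v = i} (hc i)
  have : Finite {w // n ≤ (r + 1) * Set.ncard {b : Fin n | (w, b) ∈ {v | c v = i}}} :=
    inferInstance
  refine Good.hom h3 ⟨fun w => ⟨w.1, ?_⟩, fun {u v} h => h⟩
  have h4 := hc' w.1
  rw [w.2] at h4
  exact h4

/-- Transfer to `Fin n`. Proof. `Finite.equivFin`; the girth is invariant under isomorphisms (e.g.
two embeddings and `IsContained.egirth_le`), `splits_semi_comap`. -/
theorem transfer {V W : Type} [Finite V] {G : SimpleGraph V} {H : SimpleGraph W} {g : ℕ∞} {r : ℕ}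
    (h1 : G.egirth = g) (h2 : Nonempty (G →g H)) (h3 : ¬ Splits r SemiP G) :
    ∃ (n : ℕ) (G' : SimpleGraph (Fin n)), G'.egirth = g ∧ Nonempty (G' →g H) ∧
      ¬ Splits r SemiP G' := by
  obtain ⟨n, ⟨e⟩⟩ := Finite.exists_equiv_fin V
  have iso : G.comap e.symm ≃g G := SimpleGraph.Iso.comap e.symm G
  refine ⟨n, G.comap e.symm, ?_, ?_, ?_⟩
  · rw [← h1]
    have a1 : G.IsContained (G.comap e.symm) := ⟨iso.symm.toEmbedding.toCopy⟩
    have a2 : (G.comap e.symm).IsContained G := ⟨iso.toEmbedding.toCopy⟩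
    exact le_antisymm a1.egirth_le a2.egirth_le
  · obtain ⟨φ⟩ := h2
    exact ⟨φ.comp iso.toHom⟩
  · intro h
    apply h3
    have h4 := splits_semi_comap h e e.injective
    have h5 : (G.comap e.symm).comap e = G := by
      ext a b
      simp only [SimpleGraph.comap_adj, Equiv.symm_apply_apply]
    rwa [h5] at h4

/-- The dichotomy.

Proof. (⇒) `G` contains a cycle of length `g` (`SimpleGraph.exists_egirth_eq_length`,
`cycleGraph_isContained_iff`, see `cyc_of_egirth_lt` in Semi.lean), compose with `G →g H`; if `H`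
splits into good parts then `G` splits into semi-transitive parts (`splits_semi_of_good`).
(⇐) `G ⊕g cycleGraph g` for the graph `G` of `exists_blow`, `L = max g 4`:
`egirth_sum_cycleGraph`, the homomorphism `Sum.elim`, `splits_semi_comap` for `Sum.inl`, and
`transfer`. -/
theorem dichotomy (g r : ℕ) (hg : 3 ≤ g) {W : Type} [Finite W] (H : SimpleGraph W) :
    (∃ (n : ℕ) (G : SimpleGraph (Fin n)), G.egirth = (g : ℕ∞) ∧ Nonempty (G →g H) ∧
      ¬ Splits r SemiP G) ↔
    (Nonempty (SimpleGraph.cycleGraph g →g H) ∧ ¬ Splits r (GoodP (max g 4)) H) := by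
  constructor
  · rintro ⟨n, G, hg1, ⟨φ⟩, hns⟩
    refine ⟨?_, fun h => hns (splits_semi_of_good le_rfl h φ hg1.ge)⟩
    have hna : ¬ G.IsAcyclic := by
      intro ha
      rw [SimpleGraph.egirth_eq_top.2 ha] at hg1
      exact absurd hg1 (by simp)
    obtain ⟨a, w, hw, hl⟩ := SimpleGraph.exists_egirth_eq_length.2 hna
    rw [hg1] at hl
    have hl' : w.length = g := by exact_mod_cast hl.symm
    obtain ⟨f⟩ := (SimpleGraph.cycleGraph_isContained_iff (by omega)).2 ⟨a, w, hw, hl'⟩
    exact ⟨φ.comp f.toHom⟩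
  · rintro ⟨⟨ψ⟩, hH⟩
    obtain ⟨n, G, ⟨φ⟩, hsh, hns⟩ := exists_blow H (max g 4) r (le_max_right _ _) hH
    refine transfer (V := (W × Fin n) ⊕ Fin g) (G := G ⊕g SimpleGraph.cycleGraph g) ?_ ?_ ?_
    · exact egirth_sum_cycleGraph hg fun l hl hlg =>
        hsh l hl (lt_of_lt_of_le hlg (le_max_left _ _))
    · refine ⟨⟨Sum.elim φ ψ, ?_⟩⟩
      intro u v huv
      rcases u with u | u <;> rcases v with v | v
      · exact φ.map_adj (SimpleGraph.sum_adj_inl.1 huv)
      · exact absurd huv (by simp)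
      · exact absurd huv (by simp)
      · exact ψ.map_adj (SimpleGraph.sum_adj_inr.1 huv)
    · intro h
      apply hns
      have h4 := splits_semi_comap h (Sum.inl : W × Fin n → _) Sum.inl_injective
      have h5 : (G ⊕g SimpleGraph.cycleGraph g).comap (Sum.inl : W × Fin n → _) = G := by
        ext a b
        rw [SimpleGraph.comap_adj]
        exact SimpleGraph.sum_adj_inl
      rwa [h5] at h4

end Pool.Agent.Lib.MP_e3911d_H
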