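import Pool.Agent.Lib.MP_e3911d_co_H.Odd
import Pool.Agent.Lib.MP_e3911d_co.Cyc

/-!
# MP_e3911d_co, almost bipartite graphs: marks
-/

set_option autoImplicit false

namespace Pool.Agent.Lib.MP_e3911d_H

open Pool.Agent.MP_e3911d_co (num num_eq_card num_mono num_union num_or)

/-- For the marks `m : Fin n → Fin (Q + 1)` (an element `a` is marked if `m a = 0`) the sequence `x`
contains a marked element, and the first one has a position at least `d`. -/
def Bm {n k Q : ℕ} (d : ℕ) (m : Fin n → Fin (Q + 1)) (x : OV n k) : Prop :=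
  ∃ i : Fin (k + 1), d ≤ i.val ∧ m (x.1 i) = 0 ∧ ∀ j, j < i → m (x.1 j) ≠ 0

private theorem near_pos {n k Q : ℕ} {m : Fin n → Fin (Q + 1)} {x : OV n k} {i i' : Fin (k + 1)}
    (h1 : m (x.1 i) = 0) (h2 : ∀ j, j < i → m (x.1 j) ≠ 0) (h1' : m (x.1 i') = 0)
    (h2' : ∀ j, j < i' → m (x.1 j) ≠ 0) : i = i' := by
  rcases lt_trichotomy i i' with h | h | h
  · exact absurd h1 (h2' i h)
  · exact h
  · exact absurd h1' (h2 i' h)

private theorem near_shift {n k d Q d' : ℕ} {m : Fin n → Fin (Q + 1)} (hd' : d' ≤ d)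
    {x y : OV n k} (hs : Sh d' x y) {i i' : Fin (k + 1)} (hi : d ≤ i.val) (h1 : m (x.1 i) = 0)
    (h2 : ∀ j, j < i → m (x.1 j) ≠ 0) (h1' : m (y.1 i') = 0)
    (h2' : ∀ j, j < i' → m (y.1 j) ≠ 0) : i'.val + d' = i.val := by
  have hik := i.2
  have h3 : y.1 ⟨i.val - d', by omega⟩ = x.1 i := by
    have h5 : (⟨i.val - d' + d', by omega⟩ : Fin (k + 1)) = i :=
      Fin.ext (by change i.val - d' + d' = i.val; omega)
    rw [hs (i.val - d') (by omega), h5]
  have h4 : i' = ⟨i.val - d', by omega⟩ := by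
    refine near_pos h1' h2' (by rw [h3]; exact h1) ?_
    intro j hj
    have hj' : j.val < i.val - d' := hj
    have h5 : y.1 j = x.1 ⟨j.val + d', by omega⟩ := hs j.val (by omega)
    rw [h5]
    refine h2 _ ?_
    change j.val + d' < i.val
    omega
  rw [h4]
  change i.val - d' + d' = i.val
  omega

/-- The parity of the first marked position is a proper colouring.

Proof. The `i` in `Bm` is unique; colour `x` by the parity of `i`. If `y` is the shift of `x` by
`d'`, `d' = 1` or `d' = d` (both odd, `0 < d' ≤ d ≤ i`), and `i` is the position of `x`, then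
`i - d'` is the position of `y`: `y (i - d') = x i`, and `y j = x (j + d')` for `j < i - d'`. -/
theorem near_col {n k d Q : ℕ} (hd : Odd d) (m : Fin n → Fin (Q + 1)) :
    ((og n k d).comap (Subtype.val : {x // Bm d m x} → OV n k)).Colorable 2 := by
  classical
  have hd1 : 1 ≤ d := hd.pos
  have hex : ∀ x : {x // Bm d m x}, ∃ i : Fin (k + 1), d ≤ i.val ∧ m (x.1.1 i) = 0 ∧
      ∀ j, j < i → m (x.1.1 j) ≠ 0 := fun x => x.2
  choose pos hpos using hex
  have key : ∀ x y : {x // Bm d m x}, ∀ d', d' ≤ d → Odd d' → Sh d' x.1 y.1 →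
      (pos x).val % 2 ≠ (pos y).val % 2 := by
    intro x y d' h1 h2 h3
    have h4 := near_shift h1 h3 (hpos x).1 (hpos x).2.1 (hpos x).2.2 (hpos y).2.1 (hpos y).2.2
    obtain ⟨c, hc⟩ := h2
    omega
  refine ⟨SimpleGraph.Coloring.mk (fun x => (⟨(pos x).val % 2, Nat.mod_lt _ (by norm_num)⟩ : Fin 2))
    ?_⟩
  intro x y hxy hc
  have hc' : (pos x).val % 2 = (pos y).val % 2 := congrArg Fin.val hc
  have hadj : (og n k d).Adj x.1 y.1 := hxy
  rcases hadj.2 with (h | h) | (h | h)
  · exact key x y 1 hd1 odd_one h hc'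
  · exact key x y d le_rfl hd h hc'
  · exact key y x 1 hd1 odd_one h hc'.symm
  · exact key y x d le_rfl hd h hc'.symm

/-- The number of the marks for which an element is marked. Proof. `Fintype.card_piFinset`, or the
bijection with `(Fin (n - 1) → ..)`; or `∑ b, num (fun m => m a = b) = total` and all summands are
equal. -/
theorem num_mark {n Q : ℕ} (a : Fin n) :
    num (fun m : Fin n → Fin (Q + 1) => m a = 0) * (Q + 1) =
      (Fintype.card (Fin n → Fin (Q + 1)) : ℝ) := by
  classical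
  obtain ⟨F, hF, hnum⟩ := num_eq_card (fun m : Fin n → Fin (Q + 1) => m a = 0)
  have h1 : F = Fintype.piFinset fun b : Fin n =>
      if b = a then ({0} : Finset (Fin (Q + 1))) else Finset.univ := by
    ext m
    rw [hF, Fintype.mem_piFinset]
    constructor
    · intro h b
      by_cases hb : b = a
      · rw [if_pos hb, hb, Finset.mem_singleton]
        exact h
      · rw [if_neg hb]
        exact Finset.mem_univ _
    · intro h
      have := h a
      rw [if_pos rfl, Finset.mem_singleton] at this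
      exact this
  have h2 : F.card = ∏ b : Fin n, if b = a then 1 else Q + 1 := by
    rw [h1, Fintype.card_piFinset]
    refine Finset.prod_congr rfl fun b _ => ?_
    split_ifs
    · exact Finset.card_singleton _
    · rw [Finset.card_univ, Fintype.card_fin]
  have h3 : F.card * (Q + 1) = (Q + 1) ^ n := by
    have h4 : (∏ b : Fin n, if b = a then Q + 1 else 1) = Q + 1 := by
      rw [Finset.prod_ite_eq' Finset.univ a (fun _ => Q + 1), if_pos (Finset.mem_univ a)]
    calc F.card * (Q + 1) = (∏ b : Fin n, if b = a then 1 else Q + 1) *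
          ∏ b : Fin n, if b = a then Q + 1 else 1 := by rw [h2, h4]
      _ = ∏ b : Fin n, (Q + 1) := by
          rw [← Finset.prod_mul_distrib]
          refine Finset.prod_congr rfl fun b _ => ?_
          split_ifs
          · rw [one_mul]
          · rw [mul_one]
      _ = (Q + 1) ^ n := by
          rw [Finset.prod_const, Finset.card_univ, Fintype.card_fin]
  rw [hnum, Fintype.card_fun, Fintype.card_fin, Fintype.card_fin, ← h3]
  push_cast
  ring

/-- The number of the marks for which no element of `x` is marked.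

Proof. `Fintype.piFinset S`, `S a = {0}ᶜ` for `a ∈ range x` (there are `k + 1` such `a` as `x` is
injective), `S a = univ` otherwise. -/
theorem num_unmarked {n k Q : ℕ} (x : OV n k) :
    num (fun m : Fin n → Fin (Q + 1) => ∀ i, m (x.1 i) ≠ 0) =
      (1 - 1 / ((Q : ℝ) + 1)) ^ (k + 1) * (Fintype.card (Fin n → Fin (Q + 1)) : ℝ) := by
  classical
  obtain ⟨F, hF, hnum⟩ := num_eq_card (fun m : Fin n → Fin (Q + 1) => ∀ i, m (x.1 i) ≠ 0)
  obtain ⟨R, hR⟩ : ∃ R : Finset (Fin n), R = Finset.univ.image x.1 := ⟨_, rfl⟩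
  have hRc : R.card = k + 1 := by
    rw [hR, Finset.card_image_of_injective _ x.2.injective, Finset.card_univ, Fintype.card_fin]
  have h1 : F = Fintype.piFinset fun b : Fin n =>
      if b ∈ R then ({0}ᶜ : Finset (Fin (Q + 1))) else Finset.univ := by
    ext m
    rw [hF, Fintype.mem_piFinset]
    constructor
    · intro h b
      by_cases hb : b ∈ R
      · rw [if_pos hb, Finset.mem_compl, Finset.mem_singleton]
        rw [hR, Finset.mem_image] at hb
        obtain ⟨i, -, rfl⟩ := hb
        exact h i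
      · rw [if_neg hb]
        exact Finset.mem_univ _
    · intro h i
      have h2 := h (x.1 i)
      rw [if_pos (by rw [hR]; exact Finset.mem_image_of_mem _ (Finset.mem_univ i)),
        Finset.mem_compl, Finset.mem_singleton] at h2
      exact h2
  have h2 : (F.card : ℝ) = ∏ b : Fin n, if b ∈ R then (Q : ℝ) else Q + 1 := by
    rw [h1, Fintype.card_piFinset, Nat.cast_prod]
    refine Finset.prod_congr rfl fun b _ => ?_
    split_ifs
    · rw [Finset.card_compl, Finset.card_singleton, Fintype.card_fin, Nat.add_sub_cancel]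
    · rw [Finset.card_univ, Fintype.card_fin]
      push_cast
      rfl
  have hQ : (0 : ℝ) < (Q : ℝ) + 1 := by positivity
  have h3 : (∏ b : Fin n, if b ∈ R then (Q : ℝ) else Q + 1) =
      (∏ b : Fin n, if b ∈ R then 1 - 1 / ((Q : ℝ) + 1) else 1) * ∏ b : Fin n, ((Q : ℝ) + 1) := by
    rw [← Finset.prod_mul_distrib]
    refine Finset.prod_congr rfl fun b _ => ?_
    split_ifs
    · field_simp
      ring
    · rw [one_mul]
  rw [hnum, h2, h3, Finset.prod_ite_mem, Finset.univ_inter, Finset.prod_const, hRc,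
    Finset.prod_const, Finset.card_univ, Fintype.card_fin, Fintype.card_fun, Fintype.card_fin,
    Fintype.card_fin]
  push_cast
  rfl

/-- Proof. If not `Bm d m x` then either no element of `x` is marked, or some `x j`, `j < d`, is
marked (the least marked position, `Fin.find` or `Nat.find`, is smaller than `d`): `num_union`,
`num_or`, `num_mark`, `num_unmarked`. -/
theorem num_not_bm {n k d Q : ℕ} (x : OV n k) :
    num (fun m : Fin n → Fin (Q + 1) => ¬ Bm d m x) ≤
      (d / ((Q : ℝ) + 1) + (1 - 1 / ((Q : ℝ) + 1)) ^ (k + 1)) *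
        (Fintype.card (Fin n → Fin (Q + 1)) : ℝ) := by
  classical
  have hQ : (0 : ℝ) < (Q : ℝ) + 1 := by positivity
  obtain ⟨J, hJ⟩ : ∃ J : Finset (Fin (k + 1)), J = Finset.univ.filter fun j => j.val < d :=
    ⟨_, rfl⟩
  have hJc : J.card ≤ d := by
    have h1 : (J.map ⟨fun j : Fin (k + 1) => j.val, fun a b h => Fin.ext h⟩) ⊆
        Finset.range d := by
      intro t ht
      obtain ⟨j, hj, rfl⟩ := Finset.mem_map.1 ht
      rw [hJ, Finset.mem_filter] at hj
      exact Finset.mem_range.2 hj.2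
    have h2 := Finset.card_le_card h1
    rw [Finset.card_map, Finset.card_range] at h2
    exact h2
  have h1 : num (fun m : Fin n → Fin (Q + 1) => ¬ Bm d m x) ≤
      num (fun m : Fin n → Fin (Q + 1) => (∃ j ∈ J, m (x.1 j) = 0) ∨ ∀ i, m (x.1 i) ≠ 0) := by
    refine num_mono fun m hm => ?_
    by_contra hcon
    push Not at hcon
    obtain ⟨h2, i, hi⟩ := hcon
    have hne : (Finset.univ.filter fun i : Fin (k + 1) => m (x.1 i) = 0).Nonempty :=
      ⟨i, Finset.mem_filter.2 ⟨Finset.mem_univ _, hi⟩⟩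
    obtain ⟨i₀, hi₀, hmin⟩ := Finset.exists_min_image _ id hne
    rw [Finset.mem_filter] at hi₀
    refine hm ⟨i₀, ?_, hi₀.2, ?_⟩
    · by_contra hlt
      exact h2 i₀ (by rw [hJ, Finset.mem_filter]; exact ⟨Finset.mem_univ _, by omega⟩) hi₀.2
    · intro j hj h0
      have h3 := hmin j (Finset.mem_filter.2 ⟨Finset.mem_univ _, h0⟩)
      exact absurd hj (not_lt.2 h3)
  have h2 : num (fun m : Fin n → Fin (Q + 1) => ∃ j ∈ J, m (x.1 j) = 0) ≤
      d / ((Q : ℝ) + 1) * (Fintype.card (Fin n → Fin (Q + 1)) : ℝ) := by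
    refine (num_union J fun j (m : Fin n → Fin (Q + 1)) => m (x.1 j) = 0).trans ?_
    have h3 : ∀ j ∈ J, num (fun m : Fin n → Fin (Q + 1) => m (x.1 j) = 0) =
        1 / ((Q : ℝ) + 1) * (Fintype.card (Fin n → Fin (Q + 1)) : ℝ) := by
      intro j _
      rw [← num_mark (Q := Q) (x.1 j)]
      field_simp
    rw [Finset.sum_congr rfl h3, Finset.sum_const, nsmul_eq_mul, ← mul_assoc]
    refine mul_le_mul_of_nonneg_right ?_ (Nat.cast_nonneg _)
    rw [mul_one_div]
    exact div_le_div_of_nonneg_right (Nat.cast_le.2 hJc) hQ.le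
  refine h1.trans ((num_or _ _).trans ?_)
  rw [num_unmarked x, add_mul]
  exact add_le_add h2 le_rfl

/-- The family for the odd shift graphs.

Proof. `Q` with `d / (Q + 1) ≤ ε / 2`, then `k ≥ d` with `(1 - 1 / (Q + 1)) ^ (k + 1) ≤ ε / 2`
(`exists_pow_lt_of_lt_one`); `ι = (Fin n → Fin (Q + 1))`, `B m = {x | Bm d m x}`; `near_col`,
`num_not_bm`, and the number of the `m` with `Bm d m x` is the total number minus the number of the
others. -/
theorem near_family (d : ℕ) (hd : Odd d) {ε : ℝ} (hε : 0 < ε) : ∃ k, d ≤ k ∧ ∀ n,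
    ∃ (ι : Type) (_ : Fintype ι) (_ : Nonempty ι) (B : ι → Set (OV n k)),
      (∀ s, ((og n k d).comap (Subtype.val : {x // x ∈ B s} → OV n k)).Colorable 2) ∧
      ∀ x, (1 - ε) * Fintype.card ι ≤ (Set.ncard {s | x ∈ B s} : ℝ) := by
  classical
  obtain ⟨Q, hQ⟩ := exists_nat_gt (2 * (d : ℝ) / ε)
  have hQ1 : (0 : ℝ) < (Q : ℝ) + 1 := by positivity
  have hdQ : (d : ℝ) / ((Q : ℝ) + 1) ≤ ε / 2 := by
    rw [div_le_div_iff₀ hQ1 (by norm_num)]
    rw [div_lt_iff₀ hε] at hQ
    nlinarith
  have hb0 : (0 : ℝ) ≤ 1 - 1 / ((Q : ℝ) + 1) := by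
    rw [sub_nonneg, div_le_one hQ1]
    have : (0 : ℝ) ≤ Q := Nat.cast_nonneg _
    linarith
  have hb1 : 1 - 1 / ((Q : ℝ) + 1) < 1 := by
    have : 0 < 1 / ((Q : ℝ) + 1) := by positivity
    linarith
  obtain ⟨N, hN⟩ := exists_pow_lt_of_lt_one (half_pos hε) hb1
  refine ⟨max d N, le_max_left _ _, fun n => ⟨Fin n → Fin (Q + 1), inferInstance,
    inferInstance, fun m => {x | Bm d m x}, fun m => near_col hd m, fun x => ?_⟩⟩
  have hpow : (1 - 1 / ((Q : ℝ) + 1)) ^ (max d N + 1) ≤ ε / 2 := by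
    refine (pow_le_pow_of_le_one hb0 hb1.le ?_).trans hN.le
    exact (le_max_right d N).trans (Nat.le_succ _)
  have h1 := num_not_bm (d := d) (Q := Q) x
  obtain ⟨F, hF, hFn⟩ := num_eq_card (fun m : Fin n → Fin (Q + 1) => ¬ Bm d m x)
  have h2 : {m : Fin n → Fin (Q + 1) | x ∈ {x | Bm d m x}} = ((Fᶜ : Finset _) : Set _) := by
    ext m
    rw [Finset.mem_coe, Finset.mem_compl, hF, not_not]
    rfl
  rw [h2, Set.ncard_coe_finset, Finset.card_compl, Nat.cast_sub (Finset.card_le_univ F)]
  rw [hFn] at h1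
  have h3 : (d / ((Q : ℝ) + 1) + (1 - 1 / ((Q : ℝ) + 1)) ^ (max d N + 1)) *
      (Fintype.card (Fin n → Fin (Q + 1)) : ℝ) ≤
      ε * (Fintype.card (Fin n → Fin (Q + 1)) : ℝ) := by
    refine mul_le_mul_of_nonneg_right ?_ (Nat.cast_nonneg _)
    linarith
  linarith

end Pool.Agent.Lib.MP_e3911d_H
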