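import Pool.Agent.Lib.MP_e3911d_co_H.MainA
import Pool.Agent.Lib.MP_e3911d_co_H.Near
import Pool.Agent.Lib.MP_e3911d_co_H.CycFam

/-!
# MP_e3911d_co: almost bipartite graphs of girth `g` which are far from semi-transitive
-/

set_option autoImplicit false

namespace Pool.Agent.Lib.MP_e3911d_H

open Pool.Agent.Lib.MP_e3911d_co (SemiTransitive)

/-- Reindexing of a family by `Fin (m + 1)`. -/
private theorem reindex {V κ : Type} [Fintype κ] [Nonempty κ] {G : SimpleGraph V} {a : ℝ}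
    (B : κ → Set V)
    (h1 : ∀ s, (G.comap (Subtype.val : {v // v ∈ B s} → V)).Colorable 2)
    (h2 : ∀ v, a * (Fintype.card κ : ℝ) ≤ (Set.ncard {s | v ∈ B s} : ℝ)) :
    ∃ (m : ℕ) (B : Fin (m + 1) → Set V),
      (∀ s, (G.comap (Subtype.val : {v // v ∈ B s} → V)).Colorable 2) ∧
      ∀ v, a * ((m : ℝ) + 1) ≤ (Set.ncard {s | v ∈ B s} : ℝ) := by
  have hpos : 0 < Fintype.card κ := Fintype.card_pos
  obtain ⟨m, hm⟩ : ∃ m, Fintype.card κ = m + 1 := ⟨Fintype.card κ - 1, by omega⟩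
  have e : Fin (m + 1) ≃ κ := (Fintype.equivFinOfCardEq hm).symm
  refine ⟨m, fun i => B (e i), fun s => h1 (e s), fun v => ?_⟩
  have h3 := h2 v
  rw [hm] at h3
  push_cast at h3
  have h4 : Set.ncard {s | v ∈ B (e s)} = Set.ncard {s | v ∈ B s} := by
    rw [← Set.ncard_image_of_injective _ e.injective]
    congr 1
    ext s
    constructor
    · rintro ⟨t, ht, rfl⟩
      exact ht
    · intro hs
      refine ⟨e.symm s, ?_, e.apply_symm_apply s⟩
      change v ∈ B (e (e.symm s))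
      rw [e.apply_symm_apply]
      exact hs
  rw [h4]
  exact h3

/-- For all `g ≥ 3`, `r` and `ε > 0` there is a graph of girth exactly `g` which does not split into
`r` semi-transitive parts, with a family of induced bipartite subgraphs such that every vertex lies
in the proportion `1 - ε` of them (`g` even), `1 - 1 / g` (`g` odd).

Proof. `dichotomy` for `H = og n k d ⊕g cycleGraph g`, `d = 2 * g + 1`; the family is indexed by
`ι × Fin g`, and consists of the preimages of the sets `B s` and `C t` on the two summands. -/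
theorem almost_bipartite (g r : ℕ) (hg : 3 ≤ g) (ε : ℝ) (hε : 0 < ε) :
    ∃ (n : ℕ) (G : SimpleGraph (Fin n)), G.egirth = (g : ℕ∞) ∧ ¬ Splits r SemiP G ∧
      ∃ (m : ℕ) (B : Fin (m + 1) → Set (Fin n)),
        (∀ s, (G.comap (Subtype.val : {v // v ∈ B s} → Fin n)).Colorable 2) ∧
        ∀ v, (1 - (if Even g then ε else 1 / (g : ℝ))) * ((m : ℝ) + 1) ≤
          (Set.ncard {s | v ∈ B s} : ℝ) := by
  classical
  have hg0 : (0 : ℝ) < g := by exact_mod_cast (by omega : 0 < g)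
  have hgz : NeZero g := ⟨by omega⟩
  obtain ⟨δ, hδ⟩ : ∃ δ : ℝ, δ = if Even g then ε else 1 / (g : ℝ) := ⟨_, rfl⟩
  have hδ0 : 0 < δ := by
    rw [hδ]
    split_ifs
    · exact hε
    · positivity
  have hδ1 : (if Even g then (0 : ℝ) else 1 / g) ≤ δ := by
    rw [hδ]
    split_ifs
    · exact hε.le
    · exact le_rfl
  rw [← hδ]
  obtain ⟨k, hk, hfam⟩ := near_family (2 * g + 1) ⟨g, rfl⟩ hδ0
  obtain ⟨n, hn⟩ := og_not_splits r (max g 4) k (2 * g + 1) (by omega) hk (by omega)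
  obtain ⟨ι, _, _, B, hB1, hB2⟩ := hfam n
  obtain ⟨C, hC1, hC2⟩ := cycle_family g hg
  have hH : ¬ Splits r (GoodP (max g 4)) (og n k (2 * g + 1) ⊕g SimpleGraph.cycleGraph g) := by
    intro h
    exact hn (splits_good_hom h ⟨Sum.inl, fun {_ _} h => SimpleGraph.sum_adj_inl.2 h⟩)
  have hcyc : Nonempty (SimpleGraph.cycleGraph g →g
      (og n k (2 * g + 1) ⊕g SimpleGraph.cycleGraph g)) :=
    ⟨⟨Sum.inr, fun {_ _} h => SimpleGraph.sum_adj_inr.2 h⟩⟩
  obtain ⟨n', G, hG1, ⟨φ⟩, hG3⟩ := (dichotomy g r hg _).2 ⟨hcyc, hH⟩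
  refine ⟨n', G, hG1, hG3, ?_⟩
  refine reindex (κ := ι × Fin g)
    (fun s => {x | Sum.elim (fun y => y ∈ B s.1) (fun w => w ∈ C s.2) (φ x)}) ?_ ?_
  · intro s
    obtain ⟨c1⟩ := hB1 s.1
    obtain ⟨c2⟩ := hC1 s.2
    refine ⟨SimpleGraph.Coloring.mk (fun x => Sum.elim
      (fun y => if h : y ∈ B s.1 then c1 ⟨y, h⟩ else 0)
      (fun w => if h : w ∈ C s.2 then c2 ⟨w, h⟩ else 0) (φ x.1)) ?_⟩
    rintro ⟨x, hx⟩ ⟨x', hx'⟩ hadj
    have h1 := φ.map_adj hadj
    change Sum.elim (fun y => y ∈ B s.1) (fun w => w ∈ C s.2) (φ x) at hx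
    change Sum.elim (fun y => y ∈ B s.1) (fun w => w ∈ C s.2) (φ x') at hx'
    change (og n k (2 * g + 1) ⊕g SimpleGraph.cycleGraph g).Adj (φ x) (φ x') at h1
    change Sum.elim _ _ (φ x) ≠ Sum.elim _ _ (φ x')
    rcases hu : φ x with u | u <;> rcases hv : φ x' with v | v <;> rw [hu] at hx h1 <;>
      rw [hv] at hx' h1
    · simp only [Sum.elim_inl] at hx hx' ⊢
      rw [dif_pos hx, dif_pos hx']
      have h2 : (og n k (2 * g + 1)).Adj u v := SimpleGraph.sum_adj_inl.1 h1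
      exact c1.valid (v := ⟨u, hx⟩) (w := ⟨v, hx'⟩) h2
    · exact absurd h1 (by simp)
    · exact absurd h1 (by simp)
    · simp only [Sum.elim_inr] at hx hx' ⊢
      rw [dif_pos hx, dif_pos hx']
      have h2 : (SimpleGraph.cycleGraph g).Adj u v := SimpleGraph.sum_adj_inr.1 h1
      exact c2.valid (v := ⟨u, hx⟩) (w := ⟨v, hx'⟩) h2
  · intro x
    rw [Fintype.card_prod, Fintype.card_fin]
    push_cast
    rcases hu : φ x with u | u
    · have h1 : {s : ι × Fin g | x ∈ {x | Sum.elim (fun y => y ∈ B s.1) (fun w => w ∈ C s.2)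
          (φ x)}} = {s | u ∈ B s} ×ˢ Set.univ := by
        ext s
        simp only [Set.mem_ofPred_eq, hu, Sum.elim_inl, Set.mem_prod, Set.mem_univ, and_true]
      rw [h1, Set.ncard_prod, Set.ncard_univ, Nat.card_fin]
      push_cast
      have h2 := mul_le_mul_of_nonneg_right (hB2 u) hg0.le
      rw [mul_assoc] at h2
      exact h2
    · have h1 : {s : ι × Fin g | x ∈ {x | Sum.elim (fun y => y ∈ B s.1) (fun w => w ∈ C s.2)
          (φ x)}} = Set.univ ×ˢ {s | u ∈ C s} := by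
        ext s
        simp only [Set.mem_ofPred_eq, hu, Sum.elim_inr, Set.mem_prod, Set.mem_univ, true_and]
      rw [h1, Set.ncard_prod, Set.ncard_univ, Nat.card_eq_fintype_card]
      push_cast
      have h2 := mul_le_mul_of_nonneg_left (hC2 u) (Nat.cast_nonneg (α := ℝ) (Fintype.card ι))
      refine le_trans ?_ h2
      have h3 : (1 - δ) * g ≤ (1 - (if Even g then (0 : ℝ) else 1 / g)) * g :=
        mul_le_mul_of_nonneg_right (by linarith) hg0.le
      have h4 := mul_le_mul_of_nonneg_left h3 (Nat.cast_nonneg (α := ℝ) (Fintype.card ι))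
      calc (1 - δ) * ((Fintype.card ι : ℝ) * g) = (Fintype.card ι : ℝ) * ((1 - δ) * g) := by ring
        _ ≤ _ := h4

end Pool.Agent.Lib.MP_e3911d_H
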