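import Pool.Agent.Lib.MP_e3911d_co_H.MainB
import Pool.Agent.Lib.MP_e3911d_co_H.Frac

/-!
# MP_e3911d_co: almost bipartite graphs, with the fractional chromatic number
-/

set_option autoImplicit false

namespace Pool.Agent.Lib.MP_e3911d_H

open Pool.Agent.Lib.MP_e3911d_co (SemiTransitive)

/-- A graph of girth `g` contains the cycle of length `g`. -/
private theorem exists_cycle {n g : ℕ} (hg : 3 ≤ g) {G : SimpleGraph (Fin n)}
    (h : G.egirth = (g : ℕ∞)) :
    ∃ f : Fin g → Fin n, ∀ i j, (SimpleGraph.cycleGraph g).Adj i j → G.Adj (f i) (f j) := by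
  have hna : ¬ G.IsAcyclic := by
    intro ha
    rw [SimpleGraph.egirth_eq_top.2 ha] at h
    exact absurd h (by simp)
  obtain ⟨a, w, hw, hl⟩ := SimpleGraph.exists_egirth_eq_length.2 hna
  rw [h] at hl
  have hl' : w.length = g := by exact_mod_cast hl.symm
  obtain ⟨f⟩ := (SimpleGraph.cycleGraph_isContained_iff (by omega)).2 ⟨a, w, hw, hl'⟩
  exact ⟨f, fun i j hij => f.toHom.map_adj hij⟩

/-- Almost bipartite graphs of girth `g` far from semi-transitive, with the value of the fractional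
chromatic number. -/
theorem almost_bipartite_frac (g r : ℕ) (hg : 3 ≤ g) (ε : ℝ) (hε : 0 < ε) :
    ∃ (n : ℕ) (G : SimpleGraph (Fin n)), G.egirth = (g : ℕ∞) ∧ ¬ Splits r SemiP G ∧
      (Even g → fracChrom G ≤ 2 + ε) ∧ (Odd g → fracChrom G = 2 + 2 / ((g : ℝ) - 1)) ∧
      ∃ (m : ℕ) (B : Fin (m + 1) → Set (Fin n)),
        (∀ s, (G.comap (Subtype.val : {v // v ∈ B s} → Fin n)).Colorable 2) ∧
        ∀ v, (1 - (if Even g then ε else 1 / (g : ℝ))) * ((m : ℝ) + 1) ≤
          (Set.ncard {s | v ∈ B s} : ℝ) := by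
  have h2e : 0 < 2 + ε := by linarith
  have hε1 : 0 < ε / (2 + ε) := div_pos hε h2e
  have hε2 : ε / (2 + ε) ≤ ε := by
    rw [div_le_iff₀ h2e]
    nlinarith
  have hε3 : ε / (2 + ε) < 1 := by
    rw [div_lt_one h2e]
    linarith
  have hg1 : (3 : ℝ) ≤ g := by exact_mod_cast hg
  obtain ⟨n, G, h1, h2, m, B, h3, h4⟩ := almost_bipartite g r hg (ε / (2 + ε)) hε1
  refine ⟨n, G, h1, h2, ?_, ?_, m, B, h3, ?_⟩
  · intro he
    simp only [if_pos he] at h4
    refine (fracChrom_le B hε3 h3 h4).trans (le_of_eq ?_)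
    have h5 : 1 - ε / (2 + ε) = 2 / (2 + ε) := by
      field_simp
      ring
    rw [h5]
    field_simp
  · intro ho
    have he : ¬ Even g := Nat.not_even_iff_odd.2 ho
    simp only [if_neg he] at h4
    have h5 : (1 : ℝ) / g < 1 := by
      rw [div_lt_one (by linarith)]
      linarith
    have h6 := fracChrom_le B h5 h3 h4
    obtain ⟨f, hf⟩ := exists_cycle hg h1
    have h7 := le_fracChrom ho hg f hf
    have hgm : (g : ℝ) - 1 ≠ 0 := by linarith
    have hg0 : (g : ℝ) ≠ 0 := by linarith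
    have h8 : 2 / (1 - 1 / (g : ℝ)) = 2 * (g : ℝ) / (g - 1) := by
      have h9 : 1 - 1 / (g : ℝ) = (g - 1) / g := by
        field_simp
      rw [h9]
      field_simp
    have h10 : 2 + 2 / ((g : ℝ) - 1) = 2 * (g : ℝ) / (g - 1) := by
      field_simp
      ring
    rw [h10]
    rw [h8] at h6
    exact le_antisymm h6 h7
  · intro v
    refine le_trans ?_ (h4 v)
    refine mul_le_mul_of_nonneg_right ?_ (by positivity)
    split_ifs
    · linarith
    · exact le_rfl

end Pool.Agent.Lib.MP_e3911d_H
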