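import Pool.Agent.Lib.MP_e3911d_co_H.Pat

/-!
# MP_e3911d_co, homomorphism dichotomy: sparse and dense systems of tuples
-/

set_option autoImplicit false

namespace Pool.Agent.Lib.MP_e3911d_H

open Pool.Agent.MP_e3911d_co (nx num)

private theorem exists_of_num_lt {α : Type*} [Fintype α] {P : α → Prop}
    (h : num P < (Fintype.card α : ℝ)) : ∃ x, ¬ P x := by
  obtain ⟨F, hF, hFc⟩ := Pool.Agent.MP_e3911d_co.num_eq_card P
  by_contra hcon
  push Not at hcon
  have h1 : F = Finset.univ := Finset.eq_univ_iff_forall.2 fun x => (hF x).2 (hcon x)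
  rw [hFc, h1, Finset.card_univ] at h
  exact lt_irrefl _ h

/-- Starting vertices of the patterns. -/
private def Stv {E W : Type} {n : ℕ} (g : ℕ) (f : E → W → Fin n) (v : W × Fin n) : Prop :=
  ∃ m ∈ Finset.Ico 2 g, ∃ (e : Fin m → E) (c : Fin m → W), Pat f e c ∧
    ∃ h : 0 < m, (c ⟨0, h⟩, f (e ⟨0, h⟩) (c ⟨0, h⟩)) = v

private theorem num_stv {E W : Type} [Fintype E] [Fintype W] [DecidableEq W] {n : ℕ} (g : ℕ)
    (f : E → W → Fin n) : num (Stv g f) ≤ pats g f := by
  unfold Stv pats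
  refine (Pool.Agent.MP_e3911d_co.num_union (Finset.Ico 2 g) (fun m (v : W × Fin n) =>
    ∃ (e : Fin m → E) (c : Fin m → W), Pat f e c ∧
      ∃ h : 0 < m, (c ⟨0, h⟩, f (e ⟨0, h⟩) (c ⟨0, h⟩)) = v)).trans ?_
  refine Finset.sum_le_sum fun m hm => ?_
  rw [Finset.mem_Ico] at hm
  have hm0 : 0 < m := by omega
  obtain ⟨Y, hY, hYc⟩ := Pool.Agent.MP_e3911d_co.num_eq_card
    (fun x : (Fin m → E) × (Fin m → W) => Pat f x.1 x.2)
  rw [hYc]
  refine le_trans (Pool.Agent.MP_e3911d_co.num_le_card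
    (s := Y.image (fun y => (y.2 ⟨0, hm0⟩, f (y.1 ⟨0, hm0⟩) (y.2 ⟨0, hm0⟩)))) ?_)
    (Nat.cast_le.2 Finset.card_image_le)
  rintro v ⟨e, c, he, h, rfl⟩
  rw [Finset.mem_image]
  exact ⟨(e, c), (hY _).2 he, rfl⟩

private theorem pats_nonneg {E W : Type} [Fintype E] [Fintype W] {n : ℕ} (g : ℕ)
    (f : E → W → Fin n) : 0 ≤ pats g f :=
  Finset.sum_nonneg fun _ _ => Pool.Agent.MP_e3911d_co.num_nonneg _

/-- The missing systems. -/
private def Mis {T W : Type} {n M : ℕ} (a : ℕ) (f : Fin M × T → W → Fin n) : Prop :=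
  ∃ p ∈ (Set.univ : Set (T × (W → Finset (Fin n)))), (∀ w, n ≤ 2 * a * (p.2 w).card) ∧
    ∀ i, ∃ w, f (i, p.1) w ∉ p.2 w

private theorem num_mis {T W : Type} [Fintype T] [Fintype W] [DecidableEq T] [DecidableEq W]
    {n M a : ℕ} (ha : 0 < a) :
    num (Mis (T := T) (W := W) (n := n) (M := M) a) ≤
      (Fintype.card T : ℝ) * ((2 : ℝ) ^ n) ^ Fintype.card W *
        ((1 - (1 / (2 * (a : ℝ))) ^ Fintype.card W) ^ M *
          (Fintype.card (Fin M × T → W → Fin n) : ℝ)) := by
  have ha' : (1 : ℝ) ≤ a := by exact_mod_cast ha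
  have hb0 : (0 : ℝ) ≤ 1 / (2 * (a : ℝ)) := by positivity
  have hb1 : 1 / (2 * (a : ℝ)) ≤ 1 := by
    rw [div_le_one (by positivity)]
    linarith
  have hβ0 : (0 : ℝ) ≤ (1 / (2 * (a : ℝ))) ^ Fintype.card W := by positivity
  have hβ1 : (1 / (2 * (a : ℝ))) ^ Fintype.card W ≤ 1 := pow_le_one₀ hb0 hb1
  have h1 : num (Mis (T := T) (W := W) (n := n) (M := M) a) ≤
      num (fun f : Fin M × T → W → Fin n => ∃ p ∈ (Finset.univ : Finset
        (T × (W → Finset (Fin n)))), (∀ w, n ≤ 2 * a * (p.2 w).card) ∧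
        ∀ i, ∃ w, f (i, p.1) w ∉ p.2 w) := by
    refine Pool.Agent.MP_e3911d_co.num_mono ?_
    rintro f ⟨p, -, hp⟩
    exact ⟨p, Finset.mem_univ _, hp⟩
  refine h1.trans ((Pool.Agent.MP_e3911d_co.num_union _ _).trans ?_)
  have h2 : ∀ p ∈ (Finset.univ : Finset (T × (W → Finset (Fin n)))),
      num (fun f : Fin M × T → W → Fin n => (∀ w, n ≤ 2 * a * (p.2 w).card) ∧
        ∀ i, ∃ w, f (i, p.1) w ∉ p.2 w) ≤
      (1 - (1 / (2 * (a : ℝ))) ^ Fintype.card W) ^ M *
        (Fintype.card (Fin M × T → W → Fin n) : ℝ) := by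
    rintro ⟨t, A⟩ -
    by_cases hA : ∀ w, n ≤ 2 * a * (A w).card
    · refine (Pool.Agent.MP_e3911d_co.num_mono
        (Q := fun f : Fin M × T → W → Fin n => ∀ i, ∃ w, f (i, t) w ∉ A w) ?_).trans
        (num_miss t A hβ0 hβ1 ?_)
      · intro f hf
        exact hf.2
      · rw [← mul_pow, ← Finset.card_univ, ← Finset.prod_const]
        refine Finset.prod_le_prod (fun w _ => by positivity) fun w _ => ?_
        have h3 : (n : ℝ) ≤ 2 * a * ((A w).card : ℝ) := by exact_mod_cast hA w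
        rw [one_div, inv_mul_le_iff₀ (by positivity)]
        exact h3
    · have h4 : num (fun f : Fin M × T → W → Fin n => (∀ w, n ≤ 2 * a * (A w).card) ∧
          ∀ i, ∃ w, f (i, t) w ∉ A w) ≤ ((∅ : Finset (Fin M × T → W → Fin n)).card : ℝ) :=
        Pool.Agent.MP_e3911d_co.num_le_card fun f hf => absurd hf.1 hA
      rw [Finset.card_empty, Nat.cast_zero] at h4
      have h5 : (0 : ℝ) ≤ 1 - (1 / (2 * (a : ℝ))) ^ Fintype.card W := by linarith
      exact h4.trans (by positivity)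
  refine (Finset.sum_le_sum h2).trans (le_of_eq ?_)
  rw [Finset.sum_const, nsmul_eq_mul, Finset.card_univ, Fintype.card_prod, Fintype.card_fun,
    Fintype.card_finset, Fintype.card_fin]
  push_cast
  ring

/-- A system of tuples which hits all large boxes, with every label, and has no short cycles.

Proof. `D = card W`, `β = (1 / (2 a)) ^ D`, `C ≥ 1` a natural number with
`2 ^ D * (1 - β) ^ C ≤ 1 / 2` (`exists_pow_lt_of_lt_one`, `0 ≤ 1 - β < 1`),
`y = max 2 (C * card T * D)`, `K = 8 * y ^ g`, `n` a natural number with `n ≥ N0`, `n ≥ 1`,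
`n ≥ 4 * card T`, `n ≥ 2 * a * K`; `M = C * n` and random systems `f : Fin M × T → W → Fin n`.

Miss: the `f` for which there are a `t` and boxes `A` with `n ≤ 2 * a * (A w).card` for all `w` such
that all hyperedges with label `t` miss the box are at most
`card T * (2 ^ n) ^ D * (1 - β) ^ M * total ≤ card T * (1 / 2) ^ n * total ≤ 1 / 4 * total`
(`num_union` over `T × (W → Finset (Fin n))`, `num_miss`; `β * n ^ D ≤ ∏ w, (A w).card` as
`n / (2 a) ≤ (A w).card`; `(2 ^ D * (1 - β) ^ C) ^ n ≤ (1 / 2) ^ n`, `n ≤ 2 ^ n`).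

Patterns: `sum_pats` and `markov`: `num (fun f => K < pats g f) ≤ 1 / 8 * total`.

So there is an `f` (`1 / 4 + 1 / 8 < 1`, the total is positive) without such a miss and with
`pats g f ≤ K`. Let `R` be the set of the vertices `(c 0, f (e 0) (c 0))` of all patterns `(e, c)`
of length `m`, `2 ≤ m < g`: it has at most `pats g f ≤ K` elements (compare `num_start` in
Graph.lean of MP_e3911d_co). Take `E = {e // ∀ w, (w, f e w) ∉ R}`, `lab e = e.1.2`. Given `t`
and `A` with `n ≤ a * (A w).card`, the sets `A w` without the `b` with `(w, b) ∈ R` have at least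
`(A w).card - K` elements, so `n ≤ 2 * a * card`, and a hyperedge of label `t` in the smaller box is
in `E`. A pattern in `E` is a pattern of `f` whose hyperedge `e 0` contains a vertex of `R`. -/
theorem exists_sparse (W T : Type) [Fintype W] [Fintype T] [DecidableEq W] [DecidableEq T]
    (g a N0 : ℕ) (ha : 0 < a) :
    ∃ (n : ℕ) (E : Type) (lab : E → T) (x : E → W → Fin n), N0 ≤ n ∧ 0 < n ∧
      (∀ (t : T) (A : W → Finset (Fin n)), (∀ w, n ≤ a * (A w).card) →
        ∃ e, lab e = t ∧ ∀ w, x e w ∈ A w) ∧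
      ∀ m, 2 ≤ m → m < g → ∀ (e : Fin m → E) (c : Fin m → W), ¬ Pat x e c := by
  set D := Fintype.card W with hD
  set β : ℝ := (1 / (2 * (a : ℝ))) ^ D with hβ
  have ha' : (1 : ℝ) ≤ a := by exact_mod_cast ha
  have hb0 : (0 : ℝ) ≤ 1 / (2 * (a : ℝ)) := by positivity
  have hb1 : 1 / (2 * (a : ℝ)) ≤ 1 := by
    rw [div_le_one (by positivity)]
    linarith
  have hβ0 : 0 < β := by positivity
  have hβ1 : β ≤ 1 := pow_le_one₀ hb0 hb1
  have hq0 : (0 : ℝ) ≤ 1 - β := by linarith
  obtain ⟨C, hC⟩ := exists_pow_lt_of_lt_one (show (0 : ℝ) < 1 / (2 * 2 ^ D) by positivity)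
    (show 1 - β < 1 by linarith)
  have hC2 : (2 : ℝ) ^ D * (1 - β) ^ C ≤ 1 / 2 := by
    rw [lt_div_iff₀ (by positivity)] at hC
    linarith
  set y : ℝ := max 2 (C * Fintype.card T * D) with hy
  have hy2 : 2 ≤ y := le_max_left _ _
  set K : ℝ := 8 * y ^ g with hK
  have hyp : 0 < y ^ g := by positivity
  have hK0 : 0 < K := by positivity
  set n : ℕ := max (max N0 1) (max (4 * Fintype.card T) ⌈2 * a * K⌉₊) with hn
  have hn0 : N0 ≤ n := (le_max_left _ _).trans (le_max_left _ _)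
  have hn1 : 0 < n := lt_of_lt_of_le Nat.one_pos ((le_max_right _ _).trans (le_max_left _ _))
  have hn2 : 4 * Fintype.card T ≤ n := (le_max_left _ _).trans (le_max_right _ _)
  have hn3 : 2 * a * K ≤ n := by
    have h1 : ⌈2 * a * K⌉₊ ≤ n := (le_max_right _ _).trans (le_max_right _ _)
    exact (Nat.le_ceil _).trans (by exact_mod_cast h1)
  clear_value n
  have : NeZero n := ⟨hn1.ne'⟩
  set M := C * n with hM
  set tot : ℝ := (Fintype.card (Fin M × T → W → Fin n) : ℝ) with htot
  have htot0 : 0 < tot := by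
    have h : 0 < Fintype.card (Fin M × T → W → Fin n) := Fintype.card_pos
    exact Nat.cast_pos.2 h
  have hmis : num (Mis (T := T) (W := W) (n := n) (M := M) a) ≤ 1 / 4 * tot := by
    refine (num_mis ha).trans ?_
    have h1 : ((2 : ℝ) ^ n) ^ D * (1 - β) ^ M ≤ (1 / 2) ^ n := by
      rw [hM, pow_mul, ← pow_mul, mul_comm n D, pow_mul, ← mul_pow]
      exact pow_le_pow_left₀ (by positivity) hC2 n
    have h2 : (4 : ℝ) * Fintype.card T ≤ 2 ^ n := by
      have h3 : 4 * Fintype.card T ≤ 2 ^ n := hn2.trans Nat.lt_two_pow_self.le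
      exact_mod_cast h3
    have h4 : (Fintype.card T : ℝ) * (1 / 2) ^ n ≤ 1 / 4 := by
      rw [one_div, inv_pow, ← div_eq_mul_inv, div_le_iff₀ (by positivity)]
      linarith
    calc (Fintype.card T : ℝ) * ((2 : ℝ) ^ n) ^ D * ((1 - β) ^ M * tot)
        = (Fintype.card T : ℝ) * (((2 : ℝ) ^ n) ^ D * (1 - β) ^ M) * tot := by ring
      _ ≤ (Fintype.card T : ℝ) * (1 / 2) ^ n * tot := by
          refine mul_le_mul_of_nonneg_right (mul_le_mul_of_nonneg_left h1 ?_) htot0.le
          positivity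
      _ ≤ _ := mul_le_mul_of_nonneg_right h4 htot0.le
  have hpat : num (fun f : Fin M × T → W → Fin n => K < pats g f) ≤ 1 / 8 * tot := by
    have h1 := Pool.Agent.MP_e3911d_co.markov (fun f : Fin M × T → W → Fin n => pats g f)
      (fun f => pats_nonneg g f) (sum_pats hn1 g hy2 (by
        rw [Fintype.card_prod, Fintype.card_fin, ← hD, hM]
        push_cast
        have h2 : (C : ℝ) * Fintype.card T * D ≤ y := le_max_right _ _
        have h3 : (0 : ℝ) ≤ n := Nat.cast_nonneg _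
        have h4 := mul_le_mul_of_nonneg_right h2 h3
        calc (C : ℝ) * n * Fintype.card T * D = C * Fintype.card T * D * n := by ring
          _ ≤ _ := h4)) (M := K)
    rw [hK] at h1 ⊢
    have h5 : num (fun f : Fin M × T → W → Fin n => 8 * y ^ g < pats g f) * 8 ≤ tot := by
      refine le_of_mul_le_mul_right ?_ hyp
      calc _ = num (fun f : Fin M × T → W → Fin n => 8 * y ^ g < pats g f) *
            (8 * y ^ g) := by ring
        _ ≤ _ := h1
        _ = _ := by ring
    linarith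
  obtain ⟨f, hf⟩ : ∃ f : Fin M × T → W → Fin n, ¬ (Mis a f ∨ K < pats g f) := by
    refine exists_of_num_lt ((Pool.Agent.MP_e3911d_co.num_or _ _).trans_lt ?_)
    have h1 : num (fun f : Fin M × T → W → Fin n => Mis a f) =
      num (Mis (T := T) (W := W) (n := n) (M := M) a) := rfl
    rw [h1]
    show _ < tot
    linarith
  push Not at hf
  obtain ⟨hf1, hf2⟩ := hf
  obtain ⟨R, hR, hRc⟩ := Pool.Agent.MP_e3911d_co.num_eq_card (Stv g f)
  have hRK : 2 * a * (R.card : ℝ) ≤ n := by
    have h1 : (R.card : ℝ) ≤ K := by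
      rw [← hRc]
      exact (num_stv g f).trans hf2
    exact (mul_le_mul_of_nonneg_left h1 (by positivity)).trans hn3
  have hRK' : 2 * a * R.card ≤ n := by exact_mod_cast hRK
  refine ⟨n, {e : Fin M × T // ∀ w, (w, f e w) ∉ R}, fun e => e.1.2, fun e w => f e.1 w, hn0,
    hn1, fun t A hA => ?_, fun m hm2 hmg e c hP => ?_⟩
  · set B : W → Finset (Fin n) := fun w => (A w).filter (fun b => (w, b) ∉ R) with hB
    have hBc : ∀ w, n ≤ 2 * a * (B w).card := by
      intro w
      have h1 : (A w).card ≤ (B w).card + R.card := by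
        have h2 := Finset.card_filter_add_card_filter_not (s := A w) (fun b => (w, b) ∈ R)
        have h3 : ((A w).filter (fun b => (w, b) ∈ R)).card ≤ R.card := by
          refine Finset.card_le_card_of_injOn (fun b => (w, b)) ?_ ?_
          · intro b hb
            exact (Finset.mem_filter.1 hb).2
          · intro b _ b' _ h
            exact (Prod.ext_iff.1 h).2
        have h4 : (B w).card = ((A w).filter (fun b => ¬ (w, b) ∈ R)).card := rfl
        omega
      have h5 := hA w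
      have h6 : a * (A w).card ≤ a * ((B w).card + R.card) := Nat.mul_le_mul_left a h1
      rw [mul_add] at h6
      have h7 : 2 * a * (B w).card = 2 * (a * (B w).card) := by ring
      have h8 : 2 * a * R.card = 2 * (a * R.card) := by ring
      omega
    have h9 : ∃ i, ∀ w, f (i, t) w ∈ B w := by
      by_contra hcon
      push Not at hcon
      exact hf1 ⟨(t, B), Set.mem_univ _, hBc, hcon⟩
    obtain ⟨i, hi⟩ := h9
    exact ⟨⟨(i, t), fun w => (Finset.mem_filter.1 (hi w)).2⟩, rfl,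
      fun w => (Finset.mem_filter.1 (hi w)).1⟩
  · have hm0 : 0 < m := by omega
    have h1 : Pat f (fun j => (e j).1) c :=
      ⟨Subtype.val_injective.comp hP.1, hP.2.1, hP.2.2⟩
    exact (e ⟨0, hm0⟩).2 (c ⟨0, hm0⟩) ((hR _).2
      ⟨m, Finset.mem_Ico.2 ⟨hm2, hmg⟩, _, c, h1, hm0, rfl⟩)

end Pool.Agent.Lib.MP_e3911d_H
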