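import Pool.Agent.Lib.MP_e3911d_co_H.Robust
import Pool.Agent.Lib.MP_e3911d_co_H.Sparse
import Pool.Agent.Lib.MP_e3911d_co_H.Intv

/-!
# MP_e3911d_co, homomorphism dichotomy: the sparse blow-up of `H`
-/

set_option autoImplicit false

namespace Pool.Agent.Lib.MP_e3911d_H

open Pool.Agent.Lib.MP_e3911d_co (SemiTransitive)
open Pool.Agent.MP_e3911d_co (nx Short)

/-- Sparse blow-ups: a graph `G` with the classes `{w} × Fin n`, which maps to `H`, without cycles
shorter than `L`, such that if `U` induces a semi-transitive subgraph then `H` is good on the set of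
the classes which contain at least the proportion `1 / a` of elements of `U`.

Proof. Let `N = card W + 1`, `T = Finset W × (W → Fin N)`, `k`, `s` from `exists_cycles H L N`,
`a' = 2 * a * card W + 1`, and `n`, `E`, `lab`, `x` from `exists_sparse W T L a' N0'` with
`N0' = max N0 (a * card W)`; `G = gr lab x k s`. Adjacent vertices lie in adjacent classes by the
third property of `exists_cycles`; `gr_not_short`.

Let `U` induce a semi-transitive graph and let `J` be the finite set of the `w` with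
`n ≤ a * ncard {i | (w, i) ∈ U}`; suppose that `H` is not good on `J`. Let `f` be the heights of
`height_of_semi` (the induced graph has no `Short _ 3` as `3 < L`), extended by `0` to
`W × Fin n`. Let `q = n / (a * card W)` and `B w` the set of the `i` with `(w, i) ∈ U`:
`J.card * q ≤ card W * q ≤ (B w).card` for `w ∈ J` (`a * (card W * q) ≤ n ≤ a * (B w).card`), and
`n ≤ a' * q` if `W` is not empty (`n < a * card W * (q + 1)` and `1 ≤ q`). `intervals q f J B` gives
`o` and `A`. Take the label `t = (J, o')` with `o' w = min (o w) (card W)` (equal to `o w` for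
`w ∈ J`). By `used_of_not_good` and `exists_cycles` the cycle `s t` is used. The boxes `A w` for
`w ∈ J` and `univ` for the other `w` have at least `n / a'` elements, so there is a hyperedge `e`
with label `t` in the box. The vertices `p j = (s t j, x e (s t j))`, `j < k t`, are in `U`,
consecutive ones and the ends are adjacent (`gr_adj`, `nx (last) = 0`) and `f` is weakly increasing
along `p` (fourth property of `intervals`): this contradicts `height_of_semi`
(`k t - 1 ≥ L - 1 ≥ 2`). -/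
theorem master {W : Type} [Fintype W] (H : SimpleGraph W) (L : ℕ) (hL : 4 ≤ L) (a N0 : ℕ)
    (ha : 0 < a) :
    ∃ (n : ℕ) (G : SimpleGraph (W × Fin n)), N0 ≤ n ∧ 0 < n ∧
      (∀ u v, G.Adj u v → H.Adj u.1 v.1) ∧ (∀ l, 3 ≤ l → l < L → ¬ Short G l) ∧
      ∀ U : Set (W × Fin n),
        SemiTransitive (G.comap (Subtype.val : {v // v ∈ U} → W × Fin n)) →
        Good L (H.comap
          (Subtype.val : {w // n ≤ a * Set.ncard {i : Fin n | (w, i) ∈ U}} → W)) := by
  classical
  obtain ⟨cW, hcW⟩ : ∃ cW, cW = Fintype.card W := ⟨_, rfl⟩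
  obtain ⟨k, s, hsinj, hk, hsadj, hused⟩ := exists_cycles H L (cW + 1)
  obtain ⟨n, E, lab, x, hn0, hn, hdense, hsp⟩ :=
    exists_sparse W (Finset W × (W → Fin (cW + 1))) L (2 * a * cW + 1) (max N0 (a * cW))
      (Nat.succ_pos _)
  refine ⟨n, gr lab x k s, (le_max_left _ _).trans hn0, hn, ?_,
    gr_not_short lab x k s hsinj hk hsp, ?_⟩
  · rintro u v ⟨-, e, j, h⟩
    rcases h with ⟨rfl, rfl⟩ | ⟨rfl, rfl⟩
    · exact hsadj _ j
    · exact (hsadj _ j).symm
  · intro U hU
    by_contra hng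
    have h3 : ¬ Short ((gr lab x k s).comap (Subtype.val : {v // v ∈ U} → W × Fin n)) 3 := by
      rintro ⟨p, hp, hadj⟩
      exact gr_not_short lab x k s hsinj hk hsp 3 le_rfl (by omega)
        ⟨fun j => (p j).1, Subtype.val_injective.comp hp, hadj⟩
    obtain ⟨f, hf⟩ := height_of_semi hU h3
    obtain ⟨F, hF⟩ : ∃ F : W × Fin n → ℕ, ∀ v (h : v ∈ U), F v = f ⟨v, h⟩ :=
      ⟨fun v => if h : v ∈ U then f ⟨v, h⟩ else 0, fun v h => dif_pos h⟩
    obtain ⟨J, hJm⟩ : ∃ J : Finset W, ∀ w, w ∈ J ↔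
        n ≤ a * Set.ncard {i : Fin n | (w, i) ∈ U} :=
      ⟨Finset.univ.filter fun w => n ≤ a * Set.ncard {i : Fin n | (w, i) ∈ U}, fun w => by simp⟩
    have hJ : ¬ Good L (H.comap (Subtype.val : {w // w ∈ J} → W)) := by
      intro hg
      apply hng
      exact Good.hom hg ⟨fun w => ⟨w.1, (hJm w.1).2 w.2⟩, fun {_ _} h => h⟩
    obtain ⟨B, hBm⟩ : ∃ B : W → Finset (Fin n), ∀ w i, i ∈ B w ↔ (w, i) ∈ U :=
      ⟨fun w => Finset.univ.filter fun i => (w, i) ∈ U, fun w i => by simp⟩
    have hBc : ∀ w, (B w).card = Set.ncard {i : Fin n | (w, i) ∈ U} := by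
      intro w
      rw [← Set.ncard_coe_finset]
      congr 1
      ext i
      exact hBm w i
    have hJc : J.card ≤ cW := by
      rw [hcW]
      exact Finset.card_le_univ J
    obtain ⟨q, hq⟩ : ∃ q, q = n / (a * cW) := ⟨_, rfl⟩
    have hq1 : a * cW * q ≤ n := by
      rw [hq]
      exact Nat.mul_div_le n (a * cW)
    have hBq : ∀ w ∈ J, J.card * q ≤ (B w).card := by
      intro w hw
      have h1 := (hJm w).1 hw
      rw [← hBc] at h1
      refine Nat.le_of_mul_le_mul_left ?_ ha
      calc a * (J.card * q) ≤ a * (cW * q) := by gcongr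
        _ = a * cW * q := by ring
        _ ≤ n := hq1
        _ ≤ a * (B w).card := h1
    obtain ⟨o, A, ho, hoJ, hA, hmono⟩ := intervals q F J B hBq
    obtain ⟨o', ho'⟩ : ∃ o' : W → Fin (cW + 1), ∀ w ∈ J, (o' w).val = o w := by
      refine ⟨fun w => ⟨min (o w) cW, by omega⟩, fun w hw => ?_⟩
      have := hoJ w hw
      change min (o w) cW = o w
      omega
    obtain ⟨k', s', hu'⟩ := used_of_not_good H (N := cW + 1) J o'
      (fun w hw w' hw' h => ho w hw w' hw' (by rw [← ho' w hw, ← ho' w' hw', h])) hJ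
    obtain ⟨t, ht⟩ : ∃ t : Finset W × (W → Fin (cW + 1)), t = (J, o') := ⟨_, rfl⟩
    have hu := hused t ⟨k', s', by rw [ht]; exact hu'⟩
    obtain ⟨hLk, hsJ, hso, hsa⟩ := hu
    have ht1 : t.1 = J := by rw [ht]
    have ht2 : t.2 = o' := by rw [ht]
    have hcW1 : 1 ≤ cW := by
      have h1 := hsJ ⟨0, by omega⟩
      rw [ht1] at h1
      exact (Finset.card_pos.2 ⟨_, h1⟩).trans_le hJc
    have hacW : 0 < a * cW := Nat.mul_pos ha hcW1
    have hq2 : 1 ≤ q := by
      rw [hq]
      exact Nat.div_pos ((le_max_right _ _).trans hn0) hacW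
    have hq3 : n ≤ (2 * a * cW + 1) * q := by
      have h1 : n < a * cW * (q + 1) := by
        rw [hq]
        exact Nat.lt_mul_div_succ n hacW
      nlinarith
    obtain ⟨e, hlab, hxe⟩ := hdense t (fun w => if w ∈ J then A w else Finset.univ) (by
      intro w
      by_cases hw : w ∈ J
      · simp only [if_pos hw]
        exact hq3.trans (Nat.mul_le_mul_left _ (hA w hw).2)
      · simp only [if_neg hw]
        rw [Finset.card_univ, Fintype.card_fin]
        exact Nat.le_mul_of_pos_left n (Nat.succ_pos _))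
    subst hlab
    have hmem : ∀ j : Fin (k (lab e)), x e (s _ j) ∈ A (s _ j) := by
      intro j
      have h1 := hxe (s _ j)
      have h2 := hsJ j
      rw [ht1] at h2
      rwa [if_pos h2] at h1
    have hJ' : ∀ j : Fin (k (lab e)), s _ j ∈ J := fun j => by
      have h2 := hsJ j
      rwa [ht1] at h2
    have hinU : ∀ j : Fin (k (lab e)), (s _ j, x e (s _ j)) ∈ U := fun j =>
      (hBm _ _).1 ((hA _ (hJ' j)).1 (hmem j))
    have hk2 : 2 ≤ k (lab e) := by omega
    obtain ⟨p, hp⟩ : ∃ p : ℕ → {v // v ∈ U}, ∀ i (h : i < k (lab e)),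
        p i = ⟨(s _ ⟨i, h⟩, x e (s _ ⟨i, h⟩)), hinU ⟨i, h⟩⟩ :=
      ⟨fun i => if h : i < k (lab e) then ⟨(s _ ⟨i, h⟩, x e (s _ ⟨i, h⟩)), hinU ⟨i, h⟩⟩ else
        ⟨(s _ ⟨0, by omega⟩, x e (s _ ⟨0, by omega⟩)), hinU ⟨0, by omega⟩⟩, fun i h => dif_pos h⟩
    refine hf (k (lab e) - 1) (by omega) p ?_ ?_ ?_
    · intro i hi
      rw [hp i (by omega), hp (i + 1) (by omega)]
      have h1 := gr_adj lab x k s hsinj e hk2 ⟨i, by omega⟩
      have h2 : nx (⟨i, by omega⟩ : Fin (k (lab e))) = ⟨i + 1, by omega⟩ := by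
        have h4 : i + 1 < k (lab e) := by omega
        exact Fin.ext (Nat.mod_eq_of_lt h4)
      rw [h2] at h1
      exact h1
    · intro i hi
      rw [hp i (by omega), hp (i + 1) (by omega), ← hF, ← hF]
      refine hmono _ (hJ' _) _ (hJ' _) ?_ _ (hmem _) _ (hmem _)
      have h1 := hso ⟨i, by omega⟩ ⟨i + 1, by omega⟩ (Fin.mk_lt_mk.2 (Nat.lt_succ_self i))
      rw [ht2, Fin.lt_def, ho' _ (hJ' _), ho' _ (hJ' _)] at h1
      exact h1
    · rw [hp 0 (by omega), hp (k (lab e) - 1) (by omega)]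
      have h1 := gr_adj lab x k s hsinj e hk2 ⟨k (lab e) - 1, by omega⟩
      have h2 : nx (⟨k (lab e) - 1, by omega⟩ : Fin (k (lab e))) = ⟨0, by omega⟩ := by
        apply Fin.ext
        change (k (lab e) - 1 + 1) % k (lab e) = 0
        rw [Nat.sub_add_cancel (by omega), Nat.mod_self]
      rw [h2] at h1
      exact h1.symm

end Pool.Agent.Lib.MP_e3911d_H
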