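import Mathlib

/-!
# MP_e3911d_co, almost bipartite graphs: the chromatic number of shift graphs
-/

set_option autoImplicit false

namespace Pool.Agent.Lib.MP_e3911d_H

/-- Shift graphs have large chromatic number.

Proof. Induction on `k`, for all `C`. `k = 0`: `n = card C + 1`; by the pigeonhole principle
`u (fun _ => a) = u (fun _ => b)` for some `a < b`; `z = ![a, b]`. Step: let `n` be the number for
`k` and the finite type `Set C`. Given `u` on the functions `Fin (k + 2) → Fin n` put
`U y = {c | ∃ w, y (Fin.last k) < w ∧ u (Fin.snoc y w) = c}` for `y : Fin (k + 1) → Fin n`, and let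
`z : Fin (k + 2) → Fin n` be strictly increasing with equal values of `U` at the two parts. The
colour `u z` lies in the first set (`z = Fin.snoc (fun i => z i.castSucc) (z (Fin.last _))`), so in
the second one: there is `w > z (Fin.last _)` with `u (Fin.snoc (fun i => z i.succ) w) = u z`. Take
`Fin.snoc z w`. -/
theorem shift_col (k : ℕ) : ∀ (C : Type) [Finite C], ∃ n : ℕ, ∀ u : (Fin (k + 1) → Fin n) → C,
    ∃ z : Fin (k + 2) → Fin n, StrictMono z ∧
      u (fun i => z i.castSucc) = u (fun i => z i.succ) := by
  induction k with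
  | zero =>
    intro C hC
    obtain ⟨m, ⟨e⟩⟩ := Finite.exists_equiv_fin C
    refine ⟨m + 1, fun u => ?_⟩
    have hni : ¬ Function.Injective fun a : Fin (m + 1) => e (u fun _ => a) := by
      intro h
      have := Fintype.card_le_of_injective _ h
      simp at this
    have hni' : ∃ a b : Fin (m + 1), a < b ∧ u (fun _ => a) = u (fun _ => b) := by
      simp only [Function.Injective, not_forall] at hni
      obtain ⟨a, b, hab, hne⟩ := hni
      rcases lt_or_gt_of_ne hne with h | h
      · exact ⟨a, b, h, e.injective hab⟩
      · exact ⟨b, a, h, (e.injective hab).symm⟩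
    obtain ⟨a, b, hab, h⟩ := hni'
    refine ⟨![a, b], ?_, ?_⟩
    · intro i j hij
      fin_cases i <;> fin_cases j <;> simp_all
    · have e1 : (fun i : Fin (0 + 1) => (![a, b] : Fin (0 + 2) → Fin (m + 1)) i.castSucc) =
          fun _ => a := by
        funext i
        fin_cases i
        rfl
      have e2 : (fun i : Fin (0 + 1) => (![a, b] : Fin (0 + 2) → Fin (m + 1)) i.succ) =
          fun _ => b := by
        funext i
        fin_cases i
        rfl
      rw [e1, e2, h]
  | succ k ih =>
    intro C hC
    obtain ⟨n, hn⟩ := ih (Set C)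
    refine ⟨n, fun u => ?_⟩
    obtain ⟨z, hz, hU⟩ := hn fun y => {c | ∃ w, y (Fin.last k) < w ∧
      u (Fin.snoc (α := fun _ => Fin n) y w) = c}
    have h1 : u z ∈ {c | ∃ w, z (Fin.last k).castSucc < w ∧
        u (Fin.snoc (α := fun _ => Fin n) (fun i => z i.castSucc) w) = c} := by
      refine ⟨z (Fin.last (k + 1)), hz (Fin.castSucc_lt_last _), ?_⟩
      congr 1
      exact Fin.snoc_init_self (α := fun _ => Fin n) z
    have h2 : u z ∈ {c | ∃ w, z (Fin.last k).succ < w ∧
        u (Fin.snoc (α := fun _ => Fin n) (fun i => z i.succ) w) = c} := by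
      have := hU ▸ h1
      exact this
    obtain ⟨w, hw, hwu⟩ := h2
    refine ⟨Fin.snoc (α := fun _ => Fin n) z w, ?_, ?_⟩
    · intro i j
      refine Fin.lastCases ?_ (fun j => ?_) j
      · refine Fin.lastCases ?_ (fun i => ?_) i
        · intro h
          exact absurd h (lt_irrefl _)
        · intro _
          rw [Fin.snoc_castSucc, Fin.snoc_last]
          refine lt_of_le_of_lt (hz.monotone (Fin.le_last i)) ?_
          rwa [Fin.succ_last] at hw
      · refine Fin.lastCases ?_ (fun i => ?_) i
        · intro h
          exact absurd h (not_lt.2 (Fin.le_last _))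
        · intro h
          rw [Fin.snoc_castSucc, Fin.snoc_castSucc]
          exact hz (Fin.castSucc_lt_castSucc_iff.1 h)
    · have e1 : (fun i : Fin (k + 1 + 1) =>
          (Fin.snoc (α := fun _ => Fin n) z w : Fin (k + 1 + 2) → Fin n) i.castSucc) = z := by
        funext i
        exact Fin.snoc_castSucc (α := fun _ => Fin n) w z i
      have e2 : (fun i : Fin (k + 1 + 1) =>
          (Fin.snoc (α := fun _ => Fin n) z w : Fin (k + 1 + 2) → Fin n) i.succ) =
          Fin.snoc (α := fun _ => Fin n) (fun i => z i.succ) w := by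
        funext i
        refine Fin.lastCases ?_ (fun i => ?_) i
        · rw [Fin.snoc_last, Fin.succ_last, Fin.snoc_last]
        · rw [Fin.snoc_castSucc, Fin.succ_castSucc, Fin.snoc_castSucc]
      rw [e1, e2, hwu]

end Pool.Agent.Lib.MP_e3911d_H
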