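import Pool.Agent.Lib.MP_e3911d_co_H.Defs
import Pool.Agent.Lib.MP_e3911d_co_H.ShiftCol

/-!
# MP_e3911d_co, almost bipartite graphs: odd shift graphs
-/

set_option autoImplicit false

namespace Pool.Agent.Lib.MP_e3911d_H

/-- Increasing sequences of length `k + 1`. -/
abbrev OV (n k : ℕ) : Type := {x : Fin (k + 1) → Fin n // StrictMono x}

/-- `y` is the shift of `x` by `d`. -/
def Sh {n k : ℕ} (d : ℕ) (x y : OV n k) : Prop :=
  ∀ (j : ℕ) (h : j + d < k + 1), y.1 ⟨j, by omega⟩ = x.1 ⟨j + d, h⟩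

/-- The odd shift graph: shifts by `1` and by `d`. -/
def og (n k d : ℕ) : SimpleGraph (OV n k) where
  Adj x y := x ≠ y ∧ ((Sh 1 x y ∨ Sh d x y) ∨ (Sh 1 y x ∨ Sh d y x))
  symm := ⟨fun _ _ h => ⟨h.1.symm, h.2.symm⟩⟩
  loopless := ⟨fun _ h => h.1 rfl⟩

/-- Shifts by a positive number at most `k` are different. Proof. `y 0 = x d > x 0`. -/
theorem Sh.ne {n k d : ℕ} (hd : 0 < d) (hdk : d ≤ k) {x y : OV n k} (h : Sh d x y) : x ≠ y := by
  intro hxy
  subst hxy
  have h1 := h 0 (by omega)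
  have h2 : x.1 ⟨0, by omega⟩ < x.1 ⟨0 + d, by omega⟩ := x.2 (by
    change (0 : ℕ) < 0 + d
    omega)
  rw [h1] at h2
  exact lt_irrefl _ h2

/-- Composition of single shifts. Proof. Induction on `j`. -/
theorem sh_iter {n k : ℕ} (p : ℕ → OV n k) (j : ℕ) (h : ∀ i, i < j → Sh 1 (p i) (p (i + 1))) :
    Sh j (p 0) (p j) := by
  induction j with
  | zero =>
    intro i _
    rfl
  | succ j ih =>
    intro i hi
    have h1 := h j (by omega) i (by omega)
    have h2 := ih (fun i' hi' => h i' (by omega)) (i + 1) (by omega)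
    rw [h1, h2]
    exact congrArg (p 0).1 (Fin.ext (by
      change i + 1 + j = i + (j + 1)
      omega))

/-- There is a monotone chain of single shifts of length `j` which ends at `x`, inside the part of
`x` for `c`; `R` is `<` or `>` for the heights. -/
def MC {n k : ℕ} {C : Type} (c : OV n k → C) (R : OV n k → OV n k → Prop) (j : ℕ)
    (x : OV n k) : Prop :=
  ∃ p : ℕ → OV n k, p j = x ∧ (∀ i, i ≤ j → c (p i) = c x) ∧
    ∀ i, i < j → Sh 1 (p i) (p (i + 1)) ∧ R (p i) (p (i + 1))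

/-- Extension of a chain. Proof. Prolong `p` by `y`:
`fun i => if i ≤ j then p i else y`. -/
theorem MC.step {n k : ℕ} {C : Type} {c : OV n k → C} {R : OV n k → OV n k → Prop} {j : ℕ}
    {x y : OV n k} (h : MC c R j x) (hs : Sh 1 x y) (hR : R x y) (hc : c x = c y) :
    MC c R (j + 1) y := by
  obtain ⟨p, h1, h2, h3⟩ := h
  refine ⟨fun i => if i ≤ j then p i else y, if_neg (by omega), fun i _ => ?_, fun i hi => ?_⟩
  · change c (if i ≤ j then p i else y) = c y
    split_ifs with h4
    · rw [h2 i h4, hc]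
    · rfl
  · change Sh 1 (if i ≤ j then p i else y) (if i + 1 ≤ j then p (i + 1) else y) ∧
      R (if i ≤ j then p i else y) (if i + 1 ≤ j then p (i + 1) else y)
    rw [if_pos (by omega : i ≤ j)]
    by_cases h4 : i + 1 ≤ j
    · rw [if_pos h4]
      exact h3 i (by omega)
    · rw [if_neg h4]
      have h5 : i = j := by omega
      rw [h5, h1]
      exact ⟨hs, hR⟩

/-- Two neighbours for the single shift which lie in the same part and have the same lengths of the
longest chains, for both directions.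

Proof. `shift_col k` for `C' = C × Fin (d + 1) × Fin (d + 1)` and
`u x = (c x, findGreatest (MC c R · x) d, findGreatest (MC c R' · x) d)` for strictly increasing
`x`, anything otherwise: `x`, `y` with `Sh 1 x y` and equal values of `u`. -/
theorem exists_pair {C : Type} [Finite C] (k d : ℕ) : ∃ n : ℕ, ∀ (c : OV n k → C)
    (R R' : OV n k → OV n k → Prop), ∃ x y : OV n k, Sh 1 x y ∧ c x = c y ∧
      ∀ Q, (Q = R ∨ Q = R') → ∀ j, j ≤ d →
        (∀ i, j < i → i ≤ d → ¬ MC c Q i x) → MC c Q j x → ¬ MC c Q (j + 1) y ∨ j = d := by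
  classical
  obtain ⟨n, hn⟩ := shift_col k (Option (C × Fin (d + 1) × Fin (d + 1)))
  refine ⟨n, fun c R R' => ?_⟩
  obtain ⟨z, hz, hu⟩ := hn fun w => if h : StrictMono w then
    some (c ⟨w, h⟩,
      (⟨Nat.findGreatest (fun i => MC c R i ⟨w, h⟩) d,
        Nat.lt_succ_of_le (Nat.findGreatest_le d)⟩ : Fin (d + 1)),
      (⟨Nat.findGreatest (fun i => MC c R' i ⟨w, h⟩) d,
        Nat.lt_succ_of_le (Nat.findGreatest_le d)⟩ : Fin (d + 1))) else none
  have hx : StrictMono fun i : Fin (k + 1) => z i.castSucc := fun i j hij =>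
    hz (Fin.castSucc_lt_castSucc_iff.2 hij)
  have hy : StrictMono fun i : Fin (k + 1) => z i.succ := fun i j hij =>
    hz (Fin.succ_lt_succ_iff.2 hij)
  rw [dif_pos hx, dif_pos hy] at hu
  simp only [Option.some.injEq, Prod.mk.injEq, Fin.mk.injEq] at hu
  obtain ⟨hu1, hu2, hu3⟩ := hu
  refine ⟨⟨_, hx⟩, ⟨_, hy⟩, fun j h => rfl, hu1, ?_⟩
  intro Q hQ j hj hmax hMC
  by_cases hjd : j = d
  · exact Or.inr hjd
  · refine Or.inl fun hcon => ?_
    have h1 : Nat.findGreatest (fun i => MC c Q i ⟨_, hx⟩) d = j :=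
      Nat.findGreatest_eq_iff.2 ⟨hj, fun _ => hMC, fun i h2 h3 => hmax i h2 h3⟩
    have h2 : Nat.findGreatest (fun i => MC c Q i ⟨_, hx⟩) d =
        Nat.findGreatest (fun i => MC c Q i ⟨_, hy⟩) d := by
      rcases hQ with rfl | rfl
      · exact hu2
      · exact hu3
    rw [h2] at h1
    have h3 := Nat.le_findGreatest (P := fun i => MC c Q i ⟨_, hy⟩)
      (by omega : j + 1 ≤ d) hcon
    omega

/-- Odd shift graphs do not split into good parts.

Proof. `n` from `exists_pair` for `C = Fin r`. Suppose that `c` splits the graph into good parts,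
let `f i` be the heights of the part `i` (`Good.height`) and `f x` the height of `x` in its part,
`R x y ↔ f x < f y`, `R' x y ↔ f y < f x`. There is no `x` with `MC c R d x`: the chain `p` lies in
one part, consecutive elements and the ends are adjacent (`sh_iter`, `Sh.ne`), the heights increase
along `p` and `L ≤ d + 1`; for `R'` use the reversed chain `fun i => p (d - i)`. Take `x`, `y` from
`exists_pair`; they are adjacent and in the same part, so `R x y` or `R' x y`; call it `Q`. Let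
`j ≤ d` be the greatest number with `MC c Q j x` (`MC c Q 0 x` holds); `j < d`. Then
`MC c Q (j + 1) y` by `MC.step`, a contradiction. -/
theorem og_not_splits (r L k d : ℕ) (hd : 0 < d) (hdk : d ≤ k) (hL : L ≤ d + 1) :
    ∃ n, ¬ Splits r (GoodP L) (og n k d) := by
  classical
  obtain ⟨n, hn⟩ := exists_pair (C := Fin r) k d
  refine ⟨n, ?_⟩
  rintro ⟨c, hc⟩
  have hc' : ∀ i, Good L ((og n k d).comap (Subtype.val : {v // c v = i} → OV n k)) := hc
  have hfin : ∀ i, Finite {v // c v = i} := fun i => inferInstance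
  choose f hf1 hf2 using fun i => (hc' i).height
  have hF : ∀ (i : Fin r) (v : OV n k) (h : c v = i), f i ⟨v, h⟩ = f (c v) ⟨v, rfl⟩ := by
    intro i v h
    subst h
    rfl
  obtain ⟨F, hF'⟩ : ∃ F : OV n k → ℕ, F = fun v => f (c v) ⟨v, rfl⟩ := ⟨_, rfl⟩
  have hF2 : ∀ (i : Fin r) (v : OV n k) (h : c v = i), f i ⟨v, h⟩ = F v := by
    intro i v h
    rw [hF i v h, hF']
  -- paths
  have hpath : ∀ (i0 : Fin r) (q : ℕ → OV n k), (∀ i, i ≤ d → c (q i) = i0) →
      (∀ i, i < d → (og n k d).Adj (q i) (q (i + 1))) → (∀ i, i < d → F (q i) < F (q (i + 1))) →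
      ¬ (og n k d).Adj (q 0) (q d) := by
    intro i0 q h1 h2 h3 h4
    let q' : ℕ → {v // c v = i0} := fun i => if h : i ≤ d then ⟨q i, h1 i h⟩
      else ⟨q 0, h1 0 (Nat.zero_le d)⟩
    have hq' : ∀ i (h : i ≤ d), q' i = ⟨q i, h1 i h⟩ := fun i h => dif_pos h
    refine hf2 i0 d hL q' (fun i hi => ?_) (fun i hi => ?_) ?_
    · rw [hq' i (by omega), hq' (i + 1) (by omega)]
      exact h2 i hi
    · rw [hq' i (by omega), hq' (i + 1) (by omega), hF2, hF2]
      exact h3 i hi
    · rw [hq' 0 (by omega), hq' d (by omega)]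
      exact h4
  have hadj1 : ∀ x y : OV n k, Sh 1 x y → (og n k d).Adj x y := fun x y h =>
    ⟨h.ne one_pos (by omega), Or.inl (Or.inl h)⟩
  have hadjd : ∀ x y : OV n k, Sh d x y → (og n k d).Adj x y := fun x y h =>
    ⟨h.ne hd hdk, Or.inl (Or.inr h)⟩
  have hno : ∀ x, ¬ MC c (fun x y => F x < F y) d x := by
    rintro x ⟨p, h1, h2, h3⟩
    refine hpath (c x) p h2 (fun i hi => hadj1 _ _ (h3 i hi).1) (fun i hi => (h3 i hi).2) ?_
    exact hadjd _ _ (sh_iter p d fun i hi => (h3 i hi).1)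
  have hno' : ∀ x, ¬ MC c (fun x y => F y < F x) d x := by
    rintro x ⟨p, h1, h2, h3⟩
    refine hpath (c x) (fun i => p (d - i)) (fun i hi => h2 _ (Nat.sub_le d i))
      (fun i hi => ?_) (fun i hi => ?_) ?_
    · have h4 := (h3 (d - (i + 1)) (by omega)).1
      rw [show d - (i + 1) + 1 = d - i from by omega] at h4
      exact (hadj1 _ _ h4).symm
    · have h4 := (h3 (d - (i + 1)) (by omega)).2
      rw [show d - (i + 1) + 1 = d - i from by omega] at h4
      exact h4
    · have h4 := (hadjd _ _ (sh_iter p d fun i hi => (h3 i hi).1)).symm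
      simpa using h4
  obtain ⟨x, y, hxy, hcxy, hpair⟩ := hn c (fun x y => F x < F y) (fun x y => F y < F x)
  have hne : F x ≠ F y := by
    have h1 := hf1 (c y) ⟨x, hcxy⟩ ⟨y, rfl⟩ (hadj1 x y hxy)
    rwa [hF2, hF2] at h1
  have hmain : ∀ Q : OV n k → OV n k → Prop,
      (Q = (fun x y => F x < F y) ∨ Q = (fun x y => F y < F x)) → Q x y →
      (∀ x, ¬ MC c Q d x) → False := by
    intro Q hQ hxQ hnoQ
    have h0 : MC c Q 0 x := ⟨fun _ => x, rfl, fun _ _ => rfl, fun i hi => absurd hi (by omega)⟩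
    obtain ⟨j, hj⟩ : ∃ j, j = Nat.findGreatest (fun i => MC c Q i x) d := ⟨_, rfl⟩
    have h1 : MC c Q j x := by
      rw [hj]
      exact Nat.findGreatest_spec (P := fun i => MC c Q i x) (Nat.zero_le d) h0
    have h2 : j ≤ d := by
      rw [hj]
      exact Nat.findGreatest_le d
    rcases hpair Q hQ j h2 (fun i h3 h4 => Nat.findGreatest_is_greatest
      (P := fun i => MC c Q i x) (by rw [← hj]; exact h3) h4) h1 with h3 | h3
    · exact h3 (h1.step hxy hxQ hcxy)
    · rw [h3] at h1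
      exact hnoQ x h1
  rcases lt_or_gt_of_ne hne with h | h
  · exact hmain _ (Or.inl rfl) h hno
  · exact hmain _ (Or.inr rfl) h hno'

end Pool.Agent.Lib.MP_e3911d_H
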