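import Pool.Agent.Lib.MP_e3911d_co.Cyc

/-!
# MP_e3911d_co, homomorphism dichotomy: random systems of tuples

`E` is a finite set of names of hyperedges, `W` the set of the classes; a system is a function
`f : E → W → Fin n` (the hyperedge `e` contains the vertex `f e w` of the class `w`).
`num P` is the number of the `x` with `P x`, as a real number (Count.lean, Cyc.lean of
MP_e3911d_co: `num_le_card`, `num_mono`, `num_union`, `num_or`, `num_swap`, `markov`, `geom_le`);
`nx` is the cyclic successor on `Fin m`.
-/

set_option autoImplicit false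

namespace Pool.Agent.Lib.MP_e3911d_H

open Pool.Agent.MP_e3911d_co (nx num nx_injective num_le_card num_mono num_nonneg num_swap)

/-- A short cycle of hyperedges: `e` is injective, the hyperedges `e j` and `e (nx j)` have the
same vertex in the class `c (nx j)`, and `c j ≠ c (nx j)`. -/
def Pat {E W : Type} {n : ℕ} (f : E → W → Fin n) {m : ℕ} (e : Fin m → E) (c : Fin m → W) : Prop :=
  Function.Injective e ∧ (∀ j, c j ≠ c (nx j)) ∧ ∀ j, f (e j) (c (nx j)) = f (e (nx j)) (c (nx j))

/-- The number of the systems with a given pattern.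

Proof. If `e` is not injective or `c j = c (nx j)` for some `j` the left side is zero. Otherwise put
`b j = (e (nx j), c (nx j))` and `a j = (e j, c (nx j))`: `b` is injective (`nx` is a bijection,
`nx_injective`), and no `a i` is a `b j` (`e i = e (nx j)` gives `i = nx j`, then
`c (nx i) = c (nx j) = c i`, a contradiction). The map `(f, g) ↦` (`f`, with the value `g j` at the
place `b j`), from pairs of an `f` with the pattern and a function `g : Fin m → Fin n`, is
injective:
the new function determines `g`, and `f` outside of the `b j`, so the `f (a j) = f (b j)`. Compare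
`fix_coords` in Cyc.lean. -/
theorem num_pat {E W : Type} [Fintype E] [Fintype W] [DecidableEq E] [DecidableEq W] {n m : ℕ}
    (e : Fin m → E) (c : Fin m → W) :
    num (fun f : E → W → Fin n => Pat f e c) * (n : ℝ) ^ m ≤
      (Fintype.card (E → W → Fin n) : ℝ) := by
  classical
  by_cases hinj : Function.Injective e ∧ ∀ j, c j ≠ c (nx j)
  · obtain ⟨he, hc⟩ := hinj
    obtain ⟨b, hb⟩ : ∃ b : Fin m → E × W, ∀ j, b j = (e (nx j), c (nx j)) := ⟨_, fun _ => rfl⟩
    have hbi : Function.Injective b := by
      intro i j hij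
      rw [hb, hb] at hij
      exact nx_injective (he (congrArg Prod.fst hij))
    obtain ⟨F, hF⟩ : ∃ F : Finset (E → W → Fin n), ∀ f, f ∈ F ↔ Pat f e c :=
      ⟨Finset.univ.filter (fun f : E → W → Fin n => Pat f e c), fun f => by
        rw [Finset.mem_filter]
        exact ⟨fun h => h.2, fun h => ⟨Finset.mem_univ _, h⟩⟩⟩
    have h0 : num (fun f : E → W → Fin n => Pat f e c) ≤ (F.card : ℝ) :=
      num_le_card fun f hf => (hF f).2 hf
    have h1 : (F ×ˢ (Finset.univ : Finset (Fin m → Fin n))).card ≤
        (Finset.univ : Finset (E → W → Fin n)).card := by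
      refine Finset.card_le_card_of_injOn
        (fun z v i => Function.extend b z.2 (fun w => z.1 w.1 w.2) (v, i))
        (fun _ _ => Finset.mem_univ _) ?_
      rintro ⟨f, g⟩ hf ⟨f', g'⟩ hf' h
      rw [Finset.mem_coe, Finset.mem_product, hF] at hf hf'
      have h2 : ∀ w : E × W, Function.extend b g (fun w => f w.1 w.2) w =
          Function.extend b g' (fun w => f' w.1 w.2) w := by
        intro w
        exact congrFun (congrFun h w.1) w.2
      have h3 : g = g' := by
        funext j
        have := h2 (b j)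
        rwa [hbi.extend_apply, hbi.extend_apply] at this
      have hout : ∀ w : E × W, (¬ ∃ j, b j = w) → f w.1 w.2 = f' w.1 w.2 := by
        intro w hw
        have := h2 w
        rwa [Function.extend_apply' _ _ _ hw, Function.extend_apply' _ _ _ hw] at this
      have h4 : f = f' := by
        funext v i
        by_cases hj : ∃ j, b j = (v, i)
        · obtain ⟨j, hj⟩ := hj
          rw [hb, Prod.mk.injEq] at hj
          have e1 : f (e j) (c (nx j)) = f (e (nx j)) (c (nx j)) := hf.1.2.2 j
          have e2 : f' (e j) (c (nx j)) = f' (e (nx j)) (c (nx j)) := hf'.1.2.2 j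
          rw [← hj.1, ← hj.2, ← e1, ← e2]
          refine hout (e j, c (nx j)) ?_
          rintro ⟨k, hk⟩
          rw [hb, Prod.mk.injEq] at hk
          have h5 : nx k = j := he hk.1
          rw [h5] at hk
          exact hc j hk.2
        · exact hout (v, i) hj
      rw [h3, h4]
    rw [Finset.card_product, Finset.card_univ, Finset.card_univ, Fintype.card_fun,
      Fintype.card_fin, Fintype.card_fin] at h1
    have h2 : ((F.card * n ^ m : ℕ) : ℝ) ≤ (Fintype.card (E → W → Fin n) : ℝ) :=
      Nat.cast_le.2 h1
    rw [Nat.cast_mul, Nat.cast_pow] at h2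
    exact le_trans (mul_le_mul_of_nonneg_right h0 (by positivity)) h2
  · have h0 : num (fun f : E → W → Fin n => Pat f e c) ≤ 0 := by
      have : num (fun f : E → W → Fin n => Pat f e c) ≤
          ((∅ : Finset (E → W → Fin n)).card : ℝ) :=
        num_le_card fun f hf => absurd ⟨hf.1, hf.2.1⟩ hinj
      simpa using this
    have h1 : num (fun f : E → W → Fin n => Pat f e c) * (n : ℝ) ^ m ≤ 0 :=
      mul_nonpos_of_nonpos_of_nonneg h0 (by positivity)
    exact h1.trans (Nat.cast_nonneg _)

/-- The number of the patterns of length `m`, `2 ≤ m < g`, in a system. -/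
noncomputable def pats {E W : Type} [Fintype E] [Fintype W] {n : ℕ} (g : ℕ)
    (f : E → W → Fin n) : ℝ :=
  ∑ m ∈ Finset.Ico 2 g, num (fun x : (Fin m → E) × (Fin m → W) => Pat f x.1 x.2)

private theorem geom_two {x : ℝ} (hx : 2 ≤ x) (g : ℕ) :
    ∑ l ∈ Finset.Ico 2 g, x ^ l ≤ x ^ g := by
  have h : ∀ g : ℕ, ∑ l ∈ Finset.range g, x ^ l ≤ x ^ g := by
    intro g
    induction g with
    | zero => simp
    | succ g ih =>
      rw [Finset.sum_range_succ, pow_succ]
      have : 0 ≤ x ^ g := by positivity
      nlinarith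
  refine le_trans (Finset.sum_le_sum_of_subset_of_nonneg ?_ fun l _ _ => by positivity) (h g)
  intro l hl
  rw [Finset.mem_Ico] at hl
  rw [Finset.mem_range]
  exact hl.2

/-- Proof. `num_swap`, `num_pat`, `∑ m < g, y ^ m ≤ y ^ g` for `y ≥ 2`; compare `sum_shorts` in
Cyc.lean. -/
theorem sum_pats {E W : Type} [Fintype E] [Fintype W] [DecidableEq E] [DecidableEq W] {n : ℕ}
    (hn : 0 < n) (g : ℕ) {y : ℝ} (hy : 2 ≤ y)
    (h : (Fintype.card E : ℝ) * (Fintype.card W : ℝ) ≤ y * n) :
    ∑ f : E → W → Fin n, pats g f ≤ y ^ g * (Fintype.card (E → W → Fin n) : ℝ) := by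
  classical
  have hn' : (0 : ℝ) < n := by exact_mod_cast hn
  unfold pats
  rw [Finset.sum_comm]
  have h1 : ∀ m ∈ Finset.Ico 2 g, ∑ f : E → W → Fin n,
      num (fun x : (Fin m → E) × (Fin m → W) => Pat f x.1 x.2) ≤
      y ^ m * (Fintype.card (E → W → Fin n) : ℝ) := by
    intro m _
    rw [num_swap]
    have hnm : (0 : ℝ) < (n : ℝ) ^ m := by positivity
    have h2 : ∀ x : (Fin m → E) × (Fin m → W),
        num (fun f : E → W → Fin n => Pat f x.1 x.2) ≤
          (Fintype.card (E → W → Fin n) : ℝ) / (n : ℝ) ^ m := by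
      intro x
      rw [le_div_iff₀ hnm]
      exact num_pat x.1 x.2
    refine le_trans (Finset.sum_le_sum fun x _ => h2 x) ?_
    rw [Finset.sum_const, Finset.card_univ, nsmul_eq_mul, Fintype.card_prod, Fintype.card_fun,
      Fintype.card_fun, Fintype.card_fin]
    have h3 : ((Fintype.card E : ℝ) * Fintype.card W) ^ m ≤ (y * n) ^ m :=
      pow_le_pow_left₀ (by positivity) h m
    rw [mul_pow, mul_pow] at h3
    push_cast
    have hN : (0 : ℝ) ≤ (Fintype.card (E → W → Fin n) : ℝ) := Nat.cast_nonneg _
    generalize (Fintype.card (E → W → Fin n) : ℝ) = N at hN ⊢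
    rw [← mul_div_assoc, div_le_iff₀ hnm]
    calc (Fintype.card E : ℝ) ^ m * (Fintype.card W : ℝ) ^ m * N
        ≤ (y ^ m * (n : ℝ) ^ m) * N := mul_le_mul_of_nonneg_right h3 hN
      _ = y ^ m * N * (n : ℝ) ^ m := by ring
  refine le_trans (Finset.sum_le_sum h1) ?_
  rw [← Finset.sum_mul]
  exact mul_le_mul_of_nonneg_right (geom_two hy g) (Nat.cast_nonneg _)

/-- The number of the systems all of whose hyperedges with the label `t` miss the box `A`
(`E = Fin M × T`). Proof. Such `f` are the elements of `Fintype.piFinset S` with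
`S e = {x : W → Fin n | ∃ w, x w ∉ A w}` for `e.2 = t` and `S e = univ` otherwise; `S e` has
`n ^ |W| - ∏ w, (A w).card` elements in the first case (`Fintype.card_piFinset`), and there are `M`
such `e`. So the number is at most `(1 - β) ^ M` times the number of all systems, if
`β * n ^ |W| ≤ ∏ w, (A w).card`. -/
theorem num_miss {T W : Type} [Fintype T] [Fintype W] [DecidableEq T] [DecidableEq W] {n M : ℕ}
    (t : T) (A : W → Finset (Fin n)) {β : ℝ} (hβ : 0 ≤ β) (hβ1 : β ≤ 1)
    (h : β * (n : ℝ) ^ Fintype.card W ≤ ∏ w, ((A w).card : ℝ)) :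
    num (fun f : Fin M × T → W → Fin n => ∀ i, ∃ w, f (i, t) w ∉ A w) ≤
      (1 - β) ^ M * (Fintype.card (Fin M × T → W → Fin n) : ℝ) := by
  classical
  have hS : (((Fintype.piFinset A)ᶜ).card : ℝ) ≤ (1 - β) * (n : ℝ) ^ Fintype.card W := by
    rw [Finset.card_compl, Nat.cast_sub (Finset.card_le_univ _), Fintype.card_piFinset,
      Fintype.card_fun, Fintype.card_fin]
    push_cast
    linarith
  have h1 : num (fun f : Fin M × T → W → Fin n => ∀ i, ∃ w, f (i, t) w ∉ A w) ≤
      ((Fintype.piFinset (fun e : Fin M × T => if e.2 = t then (Fintype.piFinset A)ᶜ else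
        Finset.univ)).card : ℝ) := by
    refine num_le_card fun f hf => ?_
    rw [Fintype.mem_piFinset]
    intro e
    split_ifs with he
    · rw [Finset.mem_compl, Fintype.mem_piFinset]
      intro hall
      obtain ⟨w, hw⟩ := hf e.1
      apply hw
      have h2 : e = (e.1, t) := Prod.ext rfl he
      rw [← h2]
      exact hall w
    · exact Finset.mem_univ _
  refine h1.trans ?_
  rw [Fintype.card_piFinset]
  push_cast
  have h2 : ∀ e : Fin M × T, (((if e.2 = t then (Fintype.piFinset A)ᶜ else Finset.univ :
      Finset (W → Fin n)).card : ℕ) : ℝ) ≤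
      (if e.2 = t then 1 - β else 1) * (n : ℝ) ^ Fintype.card W := by
    intro e
    split_ifs with he
    · exact hS
    · rw [Finset.card_univ, Fintype.card_fun, Fintype.card_fin, one_mul]
      push_cast
      exact le_refl _
  refine (Finset.prod_le_prod (fun e _ => Nat.cast_nonneg _) fun e _ => h2 e).trans ?_
  rw [Finset.prod_mul_distrib, Finset.prod_const, Finset.card_univ]
  have h3 : ∏ e : Fin M × T, (if e.2 = t then 1 - β else 1) = (1 - β) ^ M := by
    rw [Fintype.prod_prod_type]
    have h4 : ∀ i : Fin M, ∏ s : T, (if s = t then 1 - β else 1) = 1 - β := by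
      intro _
      rw [Finset.prod_ite_eq' Finset.univ t (fun _ => 1 - β), if_pos (Finset.mem_univ _)]
    rw [Finset.prod_congr rfl fun i _ => h4 i, Finset.prod_const, Finset.card_univ,
      Fintype.card_fin]
  rw [h3, Fintype.card_fun (α := Fin M × T), Fintype.card_fun, Fintype.card_fin]
  push_cast
  exact le_refl _

end Pool.Agent.Lib.MP_e3911d_H
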