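import Pool.Agent.Lib.MP_e3911d_co_H.Defs
import Pool.Agent.Lib.MP_e3911d_co_H.Gr

/-!
# MP_e3911d_co, homomorphism dichotomy: monotone cycles
-/

set_option autoImplicit false

namespace Pool.Agent.Lib.MP_e3911d_H

open Pool.Agent.Lib.MP_e3911d_co (SemiTransitive)
open Pool.Agent.MP_e3911d_co (nx Short)

/-- A semi-transitive graph without triangles has heights without monotone cycles.

Proof. Let `D` be the orientation and `f` its heights (`exists_height`). Adjacent vertices have
different heights. Given a sequence `p` as in the statement with adjacent `p 0`, `p k`, `2 ≤ k`: the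
arcs are `D (p i) (p (i + 1))` and `D (p 0) (p k)` (the heights increase strictly along `p`, because
they are different and `f (p i) ≤ f (p (i + 1))`), the `p i` are distinct, so
`D (p 0) (p 2)`: `p 0, p 1, p 2` is a triangle, i.e. `Short G 3` (as in `not_semi` of Semi.lean or
`cliqueFree_of_not_short` of Girth.lean). -/
theorem height_of_semi {V : Type} [Finite V] {G : SimpleGraph V} (h : SemiTransitive G)
    (h3 : ¬ Short G 3) : ∃ f : V → ℕ, ∀ k : ℕ, 2 ≤ k → ∀ p : ℕ → V,
      (∀ i, i < k → G.Adj (p i) (p (i + 1))) → (∀ i, i < k → f (p i) ≤ f (p (i + 1))) →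
      ¬ G.Adj (p 0) (p k) := by
  obtain ⟨D, h1, h2, hasym, h4, h5⟩ := h
  obtain ⟨f, hf⟩ := exists_height D h4
  have hDf : ∀ u v, G.Adj u v → f u ≤ f v → D u v := by
    intro u v hadj hle
    rcases h2 u v hadj with h | h
    · exact h
    · exact absurd (hf v u h) (not_lt.2 hle)
  refine ⟨f, fun k hk p hadj hle h0 => ?_⟩
  have hD : ∀ i, i < k → D (p i) (p (i + 1)) := fun i hi => hDf _ _ (hadj i hi) (hle i hi)
  have hmono : ∀ i j, i < j → j ≤ k → f (p i) < f (p j) := by
    intro i j hij
    induction j with
    | zero => exact absurd hij (Nat.not_lt_zero i)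
    | succ j ih =>
      intro hj
      have h6 : f (p j) < f (p (j + 1)) := hf _ _ (hD j (by omega))
      rcases Nat.lt_succ_iff_lt_or_eq.1 hij with h7 | h7
      · exact (ih h7 (by omega)).trans h6
      · rw [h7]
        exact h6
  have hinj : ∀ i j, i ≤ k → j ≤ k → p i = p j → i = j := by
    intro i j hi hj hij
    rcases lt_trichotomy i j with h6 | h6 | h6
    · have h7 := hmono i j h6 hj
      rw [hij] at h7
      exact absurd h7 (lt_irrefl _)
    · exact h6
    · have h7 := hmono j i h6 hi
      rw [hij] at h7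
      exact absurd h7 (lt_irrefl _)
  have h0k : D (p 0) (p k) := hDf _ _ h0 (hmono 0 k (by omega) le_rfl).le
  have h02 : G.Adj (p 0) (p 2) := h1 _ _ (h5 k p hinj hD h0k 0 2 (by omega) hk)
  have h01 : G.Adj (p 0) (p 1) := hadj 0 (by omega)
  have h12 : G.Adj (p 1) (p 2) := hadj 1 (by omega)
  refine h3 ⟨fun j => p j.1, fun a b hab => ?_, fun j => ?_⟩
  · have ha := a.2
    have hb := b.2
    exact Fin.ext (hinj _ _ (by omega) (by omega) hab)
  · match j with
    | 0 => exact h01
    | 1 => exact h12
    | 2 => exact h02.symm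

/-- The label `(J, o)` is used: there is a sequence in `J`, of length `k ≥ L`, which is increasing
for `o` and a cycle of `H`. -/
def Used {W : Type} (H : SimpleGraph W) (L N : ℕ) (t : Finset W × (W → Fin N)) (k : ℕ)
    (s : Fin k → W) : Prop :=
  L ≤ k ∧ (∀ j, s j ∈ t.1) ∧ (∀ i j, i < j → t.2 (s i) < t.2 (s j)) ∧
    ∀ j, H.Adj (s j) (s (nx j))

/-- The cycles for the labels.

Proof. For a label `t` such that `Used H L N t k s` for some `k`, `s`, choose such; otherwise take
`k = 0`. `s` is injective as `t.2 ∘ s` is strictly increasing. -/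
theorem exists_cycles {W : Type} (H : SimpleGraph W) (L N : ℕ) :
    ∃ (k : Finset W × (W → Fin N) → ℕ) (s : (t : Finset W × (W → Fin N)) → Fin (k t) → W),
      (∀ t, Function.Injective (s t)) ∧ (∀ t, k t = 0 ∨ L ≤ k t) ∧
      (∀ t j, H.Adj (s t j) (s t (nx j))) ∧
      ∀ t, (∃ k' s', Used H L N t k' s') → Used H L N t (k t) (s t) := by
  classical
  have key : ∀ t : Finset W × (W → Fin N), ∃ (k : ℕ) (s : Fin k → W),
      Function.Injective s ∧ (k = 0 ∨ L ≤ k) ∧ (∀ j, H.Adj (s j) (s (nx j))) ∧
      ((∃ k' s', Used H L N t k' s') → Used H L N t k s) := by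
    intro t
    by_cases h : ∃ k' s', Used H L N t k' s'
    · obtain ⟨k, s, hs⟩ := h
      refine ⟨k, s, ?_, Or.inr hs.1, hs.2.2.2, fun _ => hs⟩
      intro a b hab
      rcases lt_trichotomy a b with h1 | h1 | h1
      · have h2 := hs.2.2.1 a b h1
        rw [hab] at h2
        exact absurd h2 (lt_irrefl _)
      · exact h1
      · have h2 := hs.2.2.1 b a h1
        rw [hab] at h2
        exact absurd h2 (lt_irrefl _)
    · exact ⟨0, Fin.elim0, fun a => a.elim0, Or.inl rfl, fun j => j.elim0,
        fun h1 => absurd h1 h⟩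
  choose k s h1 h2 h3 h4 using key
  exact ⟨k, s, h1, h2, h3, h4⟩

/-- A set of classes on which `H` is not good gives a used label, for every order `o` of it.

Proof. Otherwise the heights `o` on `{w // w ∈ J}` show that `H` is good there (`good_of_height`):
a sequence `p 0, .., p k'` of adjacent elements of `J`, `o` increasing, with adjacent ends and
`L ≤ k' + 1`, gives `Used H L N (J, o) (k' + 1) (fun j => p j)` (`nx (last) = 0`). -/
theorem used_of_not_good {W : Type} (H : SimpleGraph W) {L N : ℕ} (J : Finset W)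
    (o : W → Fin N) (ho : ∀ w ∈ J, ∀ w' ∈ J, o w = o w' → w = w')
    (h : ¬ Good L (H.comap (Subtype.val : {w // w ∈ J} → W))) :
    ∃ k s, Used H L N (J, o) k s := by
  by_contra hcon
  refine h (good_of_height (fun w => (o w.1 : ℕ)) ?_ ?_)
  · intro u v huv he
    have h1 : u.1 = v.1 := ho _ u.2 _ v.2 (Fin.ext he)
    exact huv.ne (Subtype.ext h1)
  · intro k hk p hadj hlt h0
    refine hcon ⟨k + 1, fun j => (p j.1).1, hk, fun j => (p j.1).2, ?_, ?_⟩
    · have hmono : ∀ i j, i < j → j ≤ k → (o (p i).1 : ℕ) < o (p j).1 := by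
        intro i j hij
        induction j with
        | zero => exact absurd hij (Nat.not_lt_zero i)
        | succ j ih =>
          intro hj
          have h6 : (o (p j).1 : ℕ) < o (p (j + 1)).1 := hlt j (by omega)
          rcases Nat.lt_succ_iff_lt_or_eq.1 hij with h7 | h7
          · exact (ih h7 (by omega)).trans h6
          · rw [h7]
            exact h6
      intro i j hij
      exact hmono i.1 j.1 hij (Nat.lt_succ_iff.1 j.2)
    · intro j
      rcases Nat.lt_or_ge (j.1 + 1) (k + 1) with h1 | h1
      · have h2 : (nx j).1 = j.1 + 1 := Nat.mod_eq_of_lt h1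
        change H.Adj (p j.1).1 (p (nx j).1).1
        rw [h2]
        exact hadj j.1 (by omega)
      · have h3 : j.1 = k := by
          have := j.2
          omega
        have h2 : (nx j).1 = 0 := by
          change (j.1 + 1) % (k + 1) = 0
          rw [h3, Nat.mod_self]
        change H.Adj (p j.1).1 (p (nx j).1).1
        rw [h2, h3]
        exact h0.symm

end Pool.Agent.Lib.MP_e3911d_H
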